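import Pool.Agent.Lib.MP_d439b2_co.X3.H3O.No
import Pool.Agent.Lib.MP_d439b2_co.Rep.RowX3

/-!
# MP_d439b2_co, X3/H3O, Kill: the result in the language of Rep/RowX (helper65)

`killModO`: in the linked graphs without `K3:0,01,12`, without `co(P3 + 4 P2)` and without large thin spiders there
is no large co-matching of two cliques.
-/

set_option autoImplicit false

namespace Pool.Agent.MPd439b2.X3

open Pool.Agent.MPd439b2 Pool.Agent.MPd439b2.BU Pool.Agent.MPd439b2.Rep

theorem kf : F9.KF 3 3 ![{0}, {0, 1}, {1, 2}] = KA 3 3 ![{0}, {0, 1}, {1, 2}] := by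
  unfold F9.KF
  congr 1
  funext q
  fin_cases q <;> simp

theorem frJ_of {V : Type} {G : SimpleGraph V}
    (h : Rep.Fr (F9.KF 3 3 ![{0}, {0, 1}, {1, 2}]) J4 G) : FrJ G := by
  refine ⟨kf ▸ h.1, fun S hS => h.2 (ims_J4 (HC.chkG_sp
    (L := [[9], [8], [10], [0], [1], [2], [3], [4], [5], [6], [7]]) hS (by decide)))⟩

theorem Thin.tp {V : Type} {G : SimpleGraph V} {m : ℕ} {x v : ℕ → V} (h : Thin G m x v) :
    TP G m true false false x v := by
  have hne : ∀ i < m, ∀ j < m, i ≠ j → v i ≠ v j := fun i hi j hj hij e =>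
    hij ((h.xv i hi j hj).1 (e ▸ (h.xv i hi i hi).2 rfl))
  refine ⟨?_, fun i hi j hj hij => (h.xx i hi j hj hij).ne, hne,
    fun i hi j hj hij => iff_of_true (h.xx i hi j hj hij) rfl,
    fun i hi j hj _ => iff_of_false (h.vv i hi j hj) (by decide), fun i hi j hj => ?_⟩
  · intro i hi j hj e
    by_cases hij : i = j
    · subst hij
      exact G.irrefl (e ▸ (h.xv i hi i hi).2 rfl)
    · exact h.vv j hj i hi (e ▸ (h.xv i hi i hi).2 rfl)
  · rw [h.xv i hi j hj]
    exact ⟨fun h' => iff_of_true h' rfl, fun h' => h'.2 rfl⟩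

theorem cm_of_tp {V : Type} {G : SimpleGraph V} {m : ℕ} {a b : ℕ → V}
    (h : TP G m true true true a b) : CM G m a b := by
  refine ⟨fun i hi j hj hij => (h.aa i hi j hj hij).2 rfl, fun i hi j hj hij =>
    (h.bb i hi j hj hij).2 rfl, fun i hi j hj hij => (h.ab i hi j hj).2 (iff_of_false hij (by decide)),
    fun i hi h' => ?_, fun i hi => h.dis i hi i hi⟩
  have := ((h.ab i hi i hi).1 h').1 rfl
  exact Bool.noConfusion this

theorem killModO : KillMod (F9.KF 3 3 ![{0}, {0, 1}, {1, 2}]) J4 true false false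
    true true true := by
  intro m β
  obtain ⟨c₀, n, hn⟩ := noCM m β
  exact ⟨c₀, n, fun V _ G hF hL hT a b hab => hn V G a b (frJ_of hF) (fun x v h => hT x v h.tp) hL
    (cm_of_tp hab)⟩

end Pool.Agent.MPd439b2.X3
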