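import Pool.Agent.Lib.MP_d439b2_co.HC.EngC
import Pool.Agent.Lib.MP_d439b2_co.Rep.Cut
import Pool.Agent.Lib.MP_d439b2_co.H3.M0
import Pool.Agent.Lib.MP_d439b2_co.H3.M1

/-!
# MP_d439b2_co, X3/H3O: large co-matchings of two cliques for `K3:0,01,12` (helper65, note 2837)

`H3 = K3:0,01,12` is the pattern `HC.r3`, `J = co(P3 + 4 P2)` is the pattern `rJ`.

**Theorem** (`Main.lean`).  Let `G` be a graph without `H3` and `J` as induced minors in which every cut of small
rank has a small side (`Rep.Link`) and without a large thin spider.  Then `G` does not contain two large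
cliques `a k`, `b k` with `a k ~ b l` iff `k ≠ l`.

Everything is written for `G`; in the comments `D` is the complement of `G`, and `sees` means adjacent in `D`.
-/

set_option autoImplicit false

namespace Pool.Agent.MPd439b2.X3

open Pool.Agent.MPd439b2 Pool.Agent.MPd439b2.BU

/-- `J = co(P3 + 4 P2)`: in the complement the pairs `0 1`, `2 3`, `4 5`, `6 7` and the path `8 9 10` (eleven
vertices) -/
def rJ (i j : ℕ) : Bool :=
  !([(1, 0), (3, 2), (5, 4), (7, 6), (9, 8), (10, 9)].elem (i, j) ||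
    [(1, 0), (3, 2), (5, 4), (7, 6), (9, 8), (10, 9)].elem (j, i))

/-- no `K3:0,01,12`, no `J` -/
structure FrJ {V : Type} (G : SimpleGraph V) : Prop where
  h3 : ¬ IMS (KA 3 3 ![{0}, {0, 1}, {1, 2}]) G Set.univ
  j : HC.SPF G Set.univ 11 rJ

theorem FrJ.r3 {V : Type} {G : SimpleGraph V} (h : FrJ G) : HC.SPF G Set.univ 6 HC.r3 := by
  intro S hS
  have ht : ∀ i < 6, ∀ j < i, HC.r3 i j = true → Tch G (S i) (S j) :=
    fun i hi j hj hr => (hS.tch i hi j hj).2 hr
  have hn : ∀ i < 6, ∀ j < i, HC.r3 i j = false → ¬ Tch G (S i) (S j) := by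
    intro i hi j hj hr ht
    rw [hS.tch i hi j hj, hr] at ht
    exact Bool.noConfusion ht
  have hd := hS.dis
  refine h.h3 (H3.pfM0 V G (S 0) (S 1) (S 2) (S 3) (S 4) (S 5) (hS.conn 0 (by omega))
    (hS.conn 1 (by omega)) (hS.conn 2 (by omega)) (hS.conn 3 (by omega)) (hS.conn 4 (by omega))
    (hS.conn 5 (by omega)) (hd 1 (by omega) 0 (by omega)).symm (hd 2 (by omega) 0 (by omega)).symm
    (hd 2 (by omega) 1 (by omega)).symm (hd 3 (by omega) 0 (by omega)) (hd 3 (by omega) 1 (by omega))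
    (hd 3 (by omega) 2 (by omega)) (hd 4 (by omega) 0 (by omega)) (hd 4 (by omega) 1 (by omega))
    (hd 4 (by omega) 2 (by omega)) (hd 5 (by omega) 0 (by omega)) (hd 5 (by omega) 1 (by omega))
    (hd 5 (by omega) 2 (by omega)) (hd 4 (by omega) 3 (by omega)).symm
    (hd 5 (by omega) 3 (by omega)).symm (hd 5 (by omega) 4 (by omega)).symm
    (ht 1 (by omega) 0 (by omega) (by decide)).symm (ht 2 (by omega) 0 (by omega) (by decide)).symm
    (ht 2 (by omega) 1 (by omega) (by decide)).symm (ht 3 (by omega) 0 (by omega) (by decide))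
    (hn 3 (by omega) 1 (by omega) (by decide)) (hn 3 (by omega) 2 (by omega) (by decide))
    (ht 4 (by omega) 0 (by omega) (by decide)) (ht 4 (by omega) 1 (by omega) (by decide))
    (hn 4 (by omega) 2 (by omega) (by decide)) (ht 5 (by omega) 1 (by omega) (by decide))
    (ht 5 (by omega) 2 (by omega) (by decide)) (hn 5 (by omega) 0 (by omega) (by decide))
    (fun h' => hn 4 (by omega) 3 (by omega) (by decide) h'.symm)
    (fun h' => hn 5 (by omega) 3 (by omega) (by decide) h'.symm)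
    (fun h' => hn 5 (by omega) 4 (by omega) (by decide) h'.symm))

section

variable {V : Type} (G : SimpleGraph V)

/-- **thin spider** with `m` legs: the clique `x k`, the stable set `v k`, `x k ~ v l` iff `k = l` -/
structure Thin (m : ℕ) (x v : ℕ → V) : Prop where
  xx : ∀ i < m, ∀ j < m, i ≠ j → G.Adj (x i) (x j)
  vv : ∀ i < m, ∀ j < m, ¬ G.Adj (v i) (v j)
  xv : ∀ i < m, ∀ j < m, (G.Adj (x i) (v j) ↔ i = j)

/-- two cliques `a k`, `b k` (`k < n`) with `a k ~ b l` iff `k ≠ l` -/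
structure CM (n : ℕ) (a b : ℕ → V) : Prop where
  aa : ∀ i < n, ∀ j < n, i ≠ j → G.Adj (a i) (a j)
  bb : ∀ i < n, ∀ j < n, i ≠ j → G.Adj (b i) (b j)
  ab : ∀ i < n, ∀ j < n, i ≠ j → G.Adj (a i) (b j)
  na : ∀ i < n, ¬ G.Adj (a i) (b i)
  ne : ∀ i < n, a i ≠ b i

/-- `a, b` and `q, b` are co-matchings, `a` is anticomplete to `q` -/
structure T1 (n : ℕ) (a b q : ℕ → V) : Prop where
  ab : CM G n a b
  qb : CM G n q b
  aq : ∀ i < n, ∀ j < n, ¬ G.Adj (a i) (q j)
  ne : ∀ i < n, ∀ j < n, a i ≠ q j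

/-- `v` is adjacent to both ends of the pair `k` -/
def Ful (a b : ℕ → V) (v : V) (k : ℕ) : Prop := G.Adj v (a k) ∧ G.Adj v (b k)

/-- the light vertices: adjacent to both ends of at least four pairs -/
def Wl (n : ℕ) (a b : ℕ → V) : Set V := {v | 4 ≤ {k | k < n ∧ Ful G a b v k}.ncard}

/-- the class of the pair `k` -/
def Lc (n : ℕ) (a b : ℕ → V) (k : ℕ) : Set V := {v | v ∈ Wl G n a b ∧ ¬ G.Adj v (a k)}

end

end Pool.Agent.MPd439b2.X3
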