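import Pool.Agent.Lib.MP_d439b2_co.X3.H3O.Gd
import Pool.Agent.Lib.MP_d439b2_co.Rep.Cut

/-!
# MP_d439b2_co, X3/H3O, Ex: a large co-matching gives a large `T1` (helper65, note 2837 (5))
-/

set_option autoImplicit false

namespace Pool.Agent.MPd439b2.X3

open Pool.Agent.MPd439b2 Pool.Agent.MPd439b2.BU

theorem ncard_ge {V : Type} [Finite V] {S : Set V} {B : ℕ} (f : ℕ → V) (h1 : ∀ i < B, f i ∈ S)
    (h2 : ∀ i < B, ∀ j < B, i ≠ j → f i ≠ f j) : B ≤ S.ncard := by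
  have h3 : f '' ((Finset.range B : Finset ℕ) : Set ℕ) ⊆ S := by
    rintro _ ⟨i, hi, rfl⟩
    exact h1 i (by simpa using hi)
  have h4 := Set.ncard_le_ncard h3 (Set.toFinite _)
  rwa [Set.InjOn.ncard_image, Set.ncard_coe_finset, Finset.card_range] at h4
  intro i hi j hj hij
  by_contra hne
  exact h2 i (by simpa using hi) j (by simpa using hj) hne hij

/-- the classes of the indices `σ i`, `i < B` -/
def Xs {V : Type} (G : SimpleGraph V) (n : ℕ) (a b : ℕ → V) (B : ℕ) (σ : ℕ → ℕ) : Set V :=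
  {x | ∃ i < B, x ∈ Lc G n a b (σ i)}

/-- a pattern between the vertices with big neighbours in good classes and the big vertices gives a `T1` -/
theorem patT1 (m₀ m : ℕ) : ∃ M : ℕ, ∀ (V : Type) (G : SimpleGraph V) (n : ℕ) (a b : ℕ → V),
    FrJ G → (∀ x v, ¬ Thin G m₀ x v) → CM G n a b → 9 ≤ n → ∀ (B : ℕ) (σ : ℕ → ℕ),
    (∀ i < B, σ i < n ∧ G1 G n a b (σ i) ∧ G2 G n a b (σ i)) →
    (∀ i < B, ∀ j < B, i ≠ j → σ i ≠ σ j) →
    Rep.Has3 G {x | x ∈ Xs G n a b B σ ∧ ∃ v, v ∉ Wl G n a b ∧ G.Adj v x} (Wl G n a b)ᶜ M →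
    ∃ (x y v : ℕ → V) (κ : ℕ → ℕ), (∀ i < m, κ i < B ∧ x i ∈ Lc G n a b (σ (κ i)) ∧
      y i ∈ Lc G n a b (σ (κ i)) ∧ v i ∉ Wl G n a b) ∧ (∀ i < m, ∀ j < m, i ≠ j → κ i ≠ κ j) ∧
      (∀ i < m, (y i = a (σ (κ i)) ∨ x i = a (σ (κ i)))) ∧
      T1 G m y x v := by
  classical
  obtain ⟨s, hs⟩ := useC m₀ m
  obtain ⟨M, hM⟩ := W.ramC Bool (s + 3)
  refine ⟨M, fun V G n a b hG hT hc hn B σ hσ hσ' hP => ?_⟩
  obtain ⟨p, q, hpq⟩ := hP
  have hp : ∀ i < M, p i ∈ Xs G n a b B σ ∧ ∃ v, v ∉ Wl G n a b ∧ G.Adj v (p i) := by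
    rcases hpq with h | h | h
    · exact h.1
    · exact h.1
    · exact h.1
  have hq : ∀ i < M, q i ∉ Wl G n a b := by
    rcases hpq with h | h | h
    · exact h.2.1
    · exact h.2.1
    · exact h.2.1
  have hR : (∀ i < M, ∀ j < M, (G.Adj (p i) (q j) ↔ i = j)) ∨
      (∀ i < M, ∀ j < M, (G.Adj (p i) (q j) ↔ i ≠ j)) ∨
      ∀ i < M, ∀ j < M, (G.Adj (p i) (q j) ↔ i ≤ j) := by
    rcases hpq with h | h | h
    · exact Or.inl h.2.2
    · exact Or.inr (Or.inl h.2.2)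
    · exact Or.inr (Or.inr h.2.2)
  have hpne : ∀ i j, i < j → j < M → p i ≠ p j := by
    intro i j hij hj e
    rcases hR with h | h | h
    · have h1 := (h i (by omega) i (by omega)).2 rfl
      rw [e] at h1
      exact hij.ne' ((h j hj i (by omega)).1 h1)
    · have h1 := (h j hj i (by omega)).2 hij.ne'
      rw [← e] at h1
      exact (h i (by omega) i (by omega)).1 h1 rfl
    · have h1 := (h i (by omega) i (by omega)).2 le_rfl
      rw [e] at h1
      have := (h j hj i (by omega)).1 h1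
      omega
  have hκ : ∀ i, ∃ k, i < M → k < B ∧ p i ∈ Lc G n a b (σ k) := by
    intro i
    by_cases hi : i < M
    · obtain ⟨k, hk, hk'⟩ := (hp i hi).1
      exact ⟨k, fun _ => ⟨hk, hk'⟩⟩
    · exact ⟨0, fun h => absurd h hi⟩
  choose κ hκ using hκ
  obtain ⟨τ, col, t1, t2, t3⟩ := hM fun i j => decide (κ i = κ j)
  have hτ : ∀ i < s + 3, ∀ j < s + 3, i ≠ j → τ i ≠ τ j := inc_ne t1
  cases col with
  | true =>
    exfalso
    have e1 : κ (τ 0) = κ (τ 1) := by simpa using t3 0 1 (by omega) (by omega)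
    have e2 : κ (τ 0) = κ (τ 2) := by simpa using t3 0 2 (by omega) (by omega)
    have k0 := hκ (τ 0) (t2 0 (by omega))
    have k1 := hκ (τ 1) (t2 1 (by omega))
    have k2 := hκ (τ 2) (t2 2 (by omega))
    rw [← e1] at k1
    rw [← e2] at k2
    obtain ⟨v, hv, hv'⟩ := (hp (τ 0) (t2 0 (by omega))).2
    obtain ⟨w, hw, hw'⟩ := (hp (τ 1) (t2 1 (by omega))).2
    exact (hσ _ k0.1).2.2 v hv w hw _ k0.2 _ k1.2 _ k2.2
      (hpne _ _ (t1 0 1 (by omega) (by omega)) (t2 1 (by omega)))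
      (hpne _ _ (t1 0 2 (by omega) (by omega)) (t2 2 (by omega))).symm
      (hpne _ _ (t1 1 2 (by omega) (by omega)) (t2 2 (by omega))).symm hv' hw'
  | false =>
    have hk : ∀ i < s, ∀ j < s, i ≠ j → κ (τ i) ≠ κ (τ j) := by
      intro i hi j hj hij
      rcases lt_or_gt_of_ne hij with h | h
      · simpa using t3 i j h (by omega)
      · exact Ne.symm (by simpa using t3 j i h (by omega))
    obtain ⟨y, hy⟩ : ∃ y : ℕ → V, y = fun i => if p (τ i) = a (σ (κ (τ i))) then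
      b (σ (κ (τ i))) else a (σ (κ (τ i))) := ⟨_, rfl⟩
    have hlt : ∀ i < s, σ (κ (τ i)) < n := fun i hi => (hσ _ (hκ _ (t2 i (by omega))).1).1
    have hy' : ∀ i < s, y i ∈ Lc G n a b (σ (κ (τ i))) := by
      intro i hi
      rw [hy]
      dsimp only
      split_ifs with h
      · exact b_lc hc (by omega) (hlt i hi)
      · exact a_lc hc (by omega) (hlt i hi)
    have hF : Fm G n a b s (fun i => σ (κ (τ i))) (fun i => p (τ i)) y fun i => q (τ i) := by
      refine ⟨hlt, ?_, fun i hi => (hκ _ (t2 i (by omega))).2, hy', ?_, fun i hi => hq _ (t2 i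
        (by omega))⟩
      · exact fun i hi j hj hij => hσ' _ (hκ _ (t2 i (by omega))).1 _ (hκ _ (t2 j (by omega))).1
          (hk i hi j hj hij)
      · intro i hi
        rw [hy]
        dsimp only
        split_ifs with h
        · rw [h]
          exact hc.ne _ (hlt i hi)
        · exact h
    have hinc : ∀ i < s, ∀ j < s, (τ i = τ j ↔ i = j) := fun i hi j hj =>
      ⟨fun h => by
        by_contra h'
        exact hτ i (by omega) j (by omega) h' h, fun h => h ▸ rfl⟩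
    have hle : ∀ i < s, ∀ j < s, (τ i ≤ τ j ↔ i ≤ j) := by
      intro i hi j hj
      constructor
      · intro h
        by_contra h'
        have := t1 j i (by omega) (by omega)
        omega
      · intro h
        rcases Nat.eq_or_lt_of_le h with rfl | h
        · exact le_rfl
        · exact (t1 i j h (by omega)).le
    obtain ⟨ρ, r1, r2, r3⟩ := hs V G n a b _ _ _ _ hG hT hc hn hF (by
      rcases hR with h | h | h
      · exact Or.inl fun i hi j hj => (h _ (t2 i (by omega)) _ (t2 j (by omega))).trans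
          (hinc i hi j hj)
      · exact Or.inr (Or.inl fun i hi j hj => (h _ (t2 i (by omega)) _ (t2 j (by omega))).trans
          (not_congr (hinc i hi j hj)))
      · exact Or.inr (Or.inr fun i hi j hj => (h _ (t2 i (by omega)) _ (t2 j (by omega))).trans
          (hle i hi j hj)))
    refine ⟨fun i => p (τ (ρ i)), fun i => y (ρ i), fun i => q (τ (ρ i)), fun i => κ (τ (ρ i)),
      fun i hi => ⟨(hκ _ (t2 _ (lt_of_lt_of_le (r1 i hi) (by omega)))).1,
        (hκ _ (t2 _ (lt_of_lt_of_le (r1 i hi) (by omega)))).2, hy' _ (r1 i hi),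
        hq _ (t2 _ (lt_of_lt_of_le (r1 i hi) (by omega)))⟩,
      fun i hi j hj hij => hk _ (r1 i hi) _ (r1 j hj) (inc_ne r2 i hi j hj hij), ?_, r3⟩
    intro i hi
    rw [hy]
    dsimp only
    split_ifs with h
    · exact Or.inr h
    · exact Or.inl rfl

/-- **Ex.** -/
theorem exT1 (m₀ m : ℕ) (β : ℕ → ℕ) : ∃ c₀ n₀ : ℕ, ∀ (V : Type) [Finite V] (G : SimpleGraph V)
    (n : ℕ) (a b : ℕ → V), FrJ G → (∀ x v, ¬ Thin G m₀ x v) → Rep.Link β c₀ G → n₀ ≤ n →
    CM G n a b → ∃ a' b' q, T1 G m a' b' q := by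
  obtain ⟨Ng, hNg⟩ := fewBad m₀
  obtain ⟨M, hM⟩ := patT1 m₀ m
  obtain ⟨R, hR⟩ := Rep.rk3 M
  obtain ⟨B, hB⟩ : ∃ B, B = β (1 + R) + 1 := ⟨_, rfl⟩
  refine ⟨1 + R, 9 + Ng + 2 * B, fun V _ G n a b hG hT hL hn hc => ?_⟩
  have hn9 : 9 ≤ n := by omega
  have h1 := hNg V G n a b hG hT hc hn9
  have h2 := ncard_split n fun k => G1 G n a b k ∧ G2 G n a b k
  obtain ⟨σ, s1, s2⟩ := pickB (n := n) (m := 2 * B) (P := fun k => G1 G n a b k ∧ G2 G n a b k)
    (by omega)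
  by_contra hno
  have hP : ¬ Rep.Has3 G {x | x ∈ Xs G n a b B σ ∧ ∃ v, v ∉ Wl G n a b ∧ G.Adj v x}
      (Wl G n a b)ᶜ M := by
    intro h
    obtain ⟨x, y, v, -, -, -, -, h⟩ := hM V G n a b hG hT hc hn9 B σ (fun i hi => s1 i (by omega))
      (fun i hi j hj => inc_ne s2 i (by omega) j (by omega)) h
    exact hno ⟨_, _, _, h⟩
  have hrk := hR V G _ _ hP
  have hcr : LK.cr G (Xs G n a b B σ) ≤ 1 + R := by
    unfold LK.cr
    have e1 : (Xs G n a b B σ)ᶜ ⊆ (Wl G n a b \ Xs G n a b B σ) ∪ (Wl G n a b)ᶜ := by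
      intro x hx
      by_cases h : x ∈ Wl G n a b
      · exact Or.inl ⟨h, hx⟩
      · exact Or.inr h
    have e2 : Xs G n a b B σ ⊆ {x | x ∈ Xs G n a b B σ ∧ ∃ v, v ∉ Wl G n a b ∧ G.Adj v x} ∪
        {x | x ∈ Xs G n a b B σ ∧ ¬ ∃ v, v ∉ Wl G n a b ∧ G.Adj v x} := by
      intro x hx
      by_cases h : ∃ v, v ∉ Wl G n a b ∧ G.Adj v x
      · exact Or.inl ⟨hx, h⟩
      · exact Or.inr ⟨hx, h⟩
    have e3 : LK.rk G (Xs G n a b B σ) (Wl G n a b \ Xs G n a b B σ) ≤ 1 := by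
      refine Rep.rk_row G ?_
      rintro x ⟨i, hi, hx⟩
      refine Or.inl fun y hy => ?_
      exact (lc_out hG hc (by omega) (s1 i (by omega)).1 hx hy.1
        (fun h => hy.2 ⟨i, hi, h⟩)).symm
    have e4 : LK.rk G {x | x ∈ Xs G n a b B σ ∧ ¬ ∃ v, v ∉ Wl G n a b ∧ G.Adj v x}
        (Wl G n a b)ᶜ = 0 :=
      Rep.rk_anti G fun x hx v hv h => hx.2 ⟨v, hv, h.symm⟩
    have e5 := Rep.rk_mono G e2 (Set.Subset.refl (Wl G n a b)ᶜ)
    have e6 := Rep.rk_union G {x | x ∈ Xs G n a b B σ ∧ ∃ v, v ∉ Wl G n a b ∧ G.Adj v x}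
      {x | x ∈ Xs G n a b B σ ∧ ¬ ∃ v, v ∉ Wl G n a b ∧ G.Adj v x} (Wl G n a b)ᶜ
    have e7 := Rep.rk_mono G (Set.Subset.refl (Xs G n a b B σ)) e1
    have e8 := Rep.rk_union_right G (Xs G n a b B σ) (Wl G n a b \ Xs G n a b B σ) (Wl G n a b)ᶜ
    omega
  refine Rep.link_false hL le_rfl hcr ?_ ?_
  · have h3 := ncard_ge (B := B) (S := Xs G n a b B σ) (fun i => a (σ i))
      (fun i hi => ⟨i, hi, a_lc hc (by omega) (s1 i (by omega)).1⟩)
      fun i hi j hj hij => (hc.aa _ (s1 i (by omega)).1 _ (s1 j (by omega)).1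
        (inc_ne s2 i (by omega) j (by omega) hij)).ne
    omega
  · have h3 := ncard_ge (B := B) (S := (Xs G n a b B σ)ᶜ) (fun i => a (σ (B + i)))
      (fun i hi => by
        rintro ⟨j, hj, h4⟩
        exact lc_dis hG hc (by omega) (s1 (B + i) (by omega)).1 (s1 j (by omega)).1
          (inc_ne s2 (B + i) (by omega) j (by omega) (by omega))
          (a_lc hc (by omega) (s1 (B + i) (by omega)).1) h4)
      fun i hi j hj hij => (hc.aa _ (s1 (B + i) (by omega)).1 _ (s1 (B + j) (by omega)).1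
        (inc_ne s2 (B + i) (by omega) (B + j) (by omega) (by omega))).ne
    omega

end Pool.Agent.MPd439b2.X3
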