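import Pool.Agent.Lib.MP_d439b2_co.X3.H3O.Use

/-!
# MP_d439b2_co, X3/H3O, Gd: almost all indices are good (helper65, note 2837 (4))
-/

set_option autoImplicit false

namespace Pool.Agent.MPd439b2.X3

open Pool.Agent.MPd439b2 Pool.Agent.MPd439b2.BU

section

variable {V : Type} (G : SimpleGraph V) (n : ℕ) (a b : ℕ → V)

/-- every big vertex is adjacent to at most one element of the class `k` -/
def G1 (k : ℕ) : Prop := ∀ v, v ∉ Wl G n a b → ∀ x ∈ Lc G n a b k, ∀ y ∈ Lc G n a b k,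
  G.Adj v x → G.Adj v y → x = y

/-- if the class `k` has at least three elements then at most one of them has a big neighbour -/
def G2 (k : ℕ) : Prop := ∀ v, v ∉ Wl G n a b → ∀ w, w ∉ Wl G n a b → ∀ x ∈ Lc G n a b k,
  ∀ y ∈ Lc G n a b k, ∀ z ∈ Lc G n a b k, x ≠ y → z ≠ x → z ≠ y → G.Adj v x → G.Adj w y → False

end

theorem few1 : ∃ N : ℕ, ∀ (V : Type) (G : SimpleGraph V) (n : ℕ) (a b : ℕ → V), FrJ G →
    CM G n a b → 9 ≤ n → {k | k < n ∧ ¬ G1 G n a b k}.ncard ≤ N := by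
  obtain ⟨N, hN⟩ := useB
  refine ⟨N, fun V G n a b hG hc hn => ?_⟩
  by_contra hcon
  obtain ⟨σ, h1, h2⟩ := pickB (n := n) (m := N) (P := fun k => ¬ G1 G n a b k) (by omega)
  have h3 : ∀ i, ∃ v x y, i < N → v ∉ Wl G n a b ∧ x ∈ Lc G n a b (σ i) ∧
      y ∈ Lc G n a b (σ i) ∧ x ≠ y ∧ G.Adj v x ∧ G.Adj v y := by
    intro i
    by_cases hi : i < N
    · have h4 := (h1 i hi).2
      unfold G1 at h4
      push Not at h4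
      obtain ⟨v, hv, x, hx, y, hy, h5, h6, h7⟩ := h4
      exact ⟨v, x, y, fun _ => ⟨hv, hx, hy, h7, h5, h6⟩⟩
    · exact ⟨a 0, a 0, a 0, fun h => absurd h hi⟩
  choose v x y h4 using h3
  exact hN V G n a b σ x y v hG hc hn ⟨fun i hi => (h1 i hi).1, inc_ne h2,
    fun i hi => (h4 i hi).2.1, fun i hi => (h4 i hi).2.2.1, fun i hi => (h4 i hi).2.2.2.1,
    fun i hi => (h4 i hi).1⟩ fun i hi => (h4 i hi).2.2.2.2

theorem few2 (m₀ : ℕ) : ∃ N : ℕ, ∀ (V : Type) (G : SimpleGraph V) (n : ℕ) (a b : ℕ → V), FrJ G →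
    (∀ x v, ¬ Thin G m₀ x v) → CM G n a b → 9 ≤ n →
    {k | k < n ∧ (G1 G n a b k ∧ ¬ G2 G n a b k)}.ncard ≤ N := by
  obtain ⟨N₁, hN₁⟩ := useA m₀ 6
  obtain ⟨N, hN⟩ := useA m₀ N₁
  refine ⟨N, fun V G n a b hG hT hc hn => ?_⟩
  by_contra hcon
  obtain ⟨σ, h1, h2⟩ := pickB (n := n) (m := N) (P := fun k => G1 G n a b k ∧ ¬ G2 G n a b k)
    (by omega)
  have h3 : ∀ i, ∃ v w x y z, i < N → (v ∉ Wl G n a b ∧ w ∉ Wl G n a b ∧ x ∈ Lc G n a b (σ i) ∧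
      y ∈ Lc G n a b (σ i) ∧ z ∈ Lc G n a b (σ i)) ∧ (x ≠ y ∧ z ≠ x ∧ z ≠ y) ∧
      G.Adj v x ∧ G.Adj w y := by
    intro i
    by_cases hi : i < N
    · have h4 := (h1 i hi).2.2
      unfold G2 at h4
      push Not at h4
      obtain ⟨v, hv, w, hw, x, hx, y, hy, z, hz, h5, h6, h7, h8, h9, -⟩ := h4
      exact ⟨v, w, x, y, z, fun _ => ⟨⟨hv, hw, hx, hy, hz⟩, ⟨h5, h6, h7⟩, h8, h9⟩⟩
    · exact ⟨a 0, a 0, a 0, a 0, a 0, fun h => absurd h hi⟩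
  choose v w x y z h4 using h3
  -- the first big vertex
  have F1 : Fm G n a b N σ z x v := ⟨fun i hi => (h1 i hi).1, inc_ne h2,
    fun i hi => (h4 i hi).1.2.2.2.2, fun i hi => (h4 i hi).1.2.2.1, fun i hi => (h4 i hi).2.1.2.1,
    fun i hi => (h4 i hi).1.1⟩
  obtain ⟨u, hu, τ, t1, t2, t3⟩ := hN V G n a b σ z x v hG hT hc hn F1 fun i hi =>
    ⟨fun h => (h4 i hi).2.1.2.1 ((h1 i hi).2.1 _ (h4 i hi).1.1 _ (h4 i hi).1.2.2.2.2 _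
      (h4 i hi).1.2.2.1 h (h4 i hi).2.2.1), (h4 i hi).2.2.1⟩
  -- the second one
  have F2 : Fm G n a b N₁ (fun i => σ (τ i)) (fun i => z (τ i)) (fun i => y (τ i))
      fun i => w (τ i) := by
    refine ⟨fun i hi => (h1 _ (t1 i hi)).1, fun i hi j hj hij => inc_ne h2 _ (t1 i hi) _ (t1 j hj)
      (inc_ne t2 i hi j hj hij), fun i hi => (h4 _ (t1 i hi)).1.2.2.2.2,
      fun i hi => (h4 _ (t1 i hi)).1.2.2.2.1, fun i hi => (h4 _ (t1 i hi)).2.1.2.2,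
      fun i hi => (h4 _ (t1 i hi)).1.2.1⟩
  obtain ⟨u', hu', ρ, r1, r2, r3⟩ := hN₁ V G n a b _ _ _ _ hG hT hc hn F2 fun i hi =>
    ⟨fun h => (h4 _ (t1 i hi)).2.1.2.2 ((h1 _ (t1 i hi)).2.1 _ (h4 _ (t1 i hi)).1.2.1 _
      (h4 _ (t1 i hi)).1.2.2.2.2 _ (h4 _ (t1 i hi)).1.2.2.2.1 h (h4 _ (t1 i hi)).2.2.2),
      (h4 _ (t1 i hi)).2.2.2⟩
  -- the six indices
  have l1 : ∀ i < 6, τ (ρ i) < N := fun i hi => t1 _ (r1 i hi)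
  have l2 : ∀ i < 6, ∀ j < 6, i ≠ j → σ (τ (ρ i)) ≠ σ (τ (ρ j)) := fun i hi j hj hij =>
    inc_ne h2 _ (l1 i hi) _ (l1 j hj) (inc_ne t2 _ (r1 i hi) _ (r1 j hj) (inc_ne r2 i hi j hj hij))
  have hcm : CM G 6 (fun i => x (τ (ρ i))) fun i => y (τ (ρ i)) := by
    refine ⟨?_, ?_, ?_, ?_, ?_⟩
    · exact fun i hi j hj hij => lc_diff hG hc (by omega) (h1 _ (l1 i hi)).1 (h1 _ (l1 j hj)).1
        (l2 i hi j hj hij) (h4 _ (l1 i hi)).1.2.2.1 (h4 _ (l1 j hj)).1.2.2.1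
    · exact fun i hi j hj hij => lc_diff hG hc (by omega) (h1 _ (l1 i hi)).1 (h1 _ (l1 j hj)).1
        (l2 i hi j hj hij) (h4 _ (l1 i hi)).1.2.2.2.1 (h4 _ (l1 j hj)).1.2.2.2.1
    · exact fun i hi j hj hij => lc_diff hG hc (by omega) (h1 _ (l1 i hi)).1 (h1 _ (l1 j hj)).1
        (l2 i hi j hj hij) (h4 _ (l1 i hi)).1.2.2.1 (h4 _ (l1 j hj)).1.2.2.2.1
    · exact fun i hi => lc_same hG hc (by omega) (h1 _ (l1 i hi)).1 (h4 _ (l1 i hi)).1.2.2.1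
        (h4 _ (l1 i hi)).1.2.2.2.1
    · exact fun i hi => (h4 _ (l1 i hi)).2.1.1
  refine two hG hcm (z := fun i => z (τ (ρ i))) (v := u) (w := u') ?_ ?_ ?_ ?_
  · intro i hi j hj hij
    exact ⟨lc_diff hG hc (by omega) (h1 _ (l1 i hi)).1 (h1 _ (l1 j hj)).1
        (l2 i hi j hj hij) (h4 _ (l1 i hi)).1.2.2.2.2 (h4 _ (l1 j hj)).1.2.2.1,
      lc_diff hG hc (by omega) (h1 _ (l1 i hi)).1 (h1 _ (l1 j hj)).1
        (l2 i hi j hj hij) (h4 _ (l1 i hi)).1.2.2.2.2 (h4 _ (l1 j hj)).1.2.2.2.1,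
      lc_diff hG hc (by omega) (h1 _ (l1 i hi)).1 (h1 _ (l1 j hj)).1
        (l2 i hi j hj hij) (h4 _ (l1 i hi)).1.2.2.2.2 (h4 _ (l1 j hj)).1.2.2.2.2⟩
  · intro i hi
    exact ⟨lc_same hG hc (by omega) (h1 _ (l1 i hi)).1 (h4 _ (l1 i hi)).1.2.2.2.2
        (h4 _ (l1 i hi)).1.2.2.1, lc_same hG hc (by omega) (h1 _ (l1 i hi)).1
        (h4 _ (l1 i hi)).1.2.2.2.2 (h4 _ (l1 i hi)).1.2.2.2.1, (h4 _ (l1 i hi)).2.1.2.1,
        (h4 _ (l1 i hi)).2.1.2.2⟩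
  · intro i hi
    have h5 := t3 _ (r1 i hi)
    refine ⟨h5.2, fun h6 => ?_, h5.1⟩
    exact (h4 _ (l1 i hi)).2.1.1 ((h1 _ (l1 i hi)).2.1 _ hu _ (h4 _ (l1 i hi)).1.2.2.1 _
      (h4 _ (l1 i hi)).1.2.2.2.1 h5.2 h6)
  · intro i hi
    have h5 := r3 i hi
    refine ⟨fun h6 => ?_, h5.2, h5.1⟩
    exact (h4 _ (l1 i hi)).2.1.1 ((h1 _ (l1 i hi)).2.1 _ hu' _ (h4 _ (l1 i hi)).1.2.2.1 _
      (h4 _ (l1 i hi)).1.2.2.2.1 h6 h5.2)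

/-- **almost all indices are good** -/
theorem fewBad (m₀ : ℕ) : ∃ N : ℕ, ∀ (V : Type) (G : SimpleGraph V) (n : ℕ) (a b : ℕ → V), FrJ G →
    (∀ x v, ¬ Thin G m₀ x v) → CM G n a b → 9 ≤ n →
    {k | k < n ∧ ¬ (G1 G n a b k ∧ G2 G n a b k)}.ncard ≤ N := by
  obtain ⟨N₁, hN₁⟩ := few1
  obtain ⟨N₂, hN₂⟩ := few2 m₀
  refine ⟨N₁ + N₂, fun V G n a b hG hT hc hn => ?_⟩
  have h1 : {k | k < n ∧ ¬ (G1 G n a b k ∧ G2 G n a b k)} ⊆ {k | k < n ∧ ¬ G1 G n a b k} ∪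
      {k | k < n ∧ (G1 G n a b k ∧ ¬ G2 G n a b k)} := by
    rintro k ⟨hk, hk'⟩
    by_cases h : G1 G n a b k
    · exact Or.inr ⟨hk, h, fun h2 => hk' ⟨h, h2⟩⟩
    · exact Or.inl ⟨hk, h⟩
  refine (Set.ncard_le_ncard h1 ((fin_lt n _).union (fin_lt n _))).trans
    ((Set.ncard_union_le _ _).trans ?_)
  exact Nat.add_le_add (hN₁ V G n a b hG hc hn) (hN₂ V G n a b hG hT hc hn)

end Pool.Agent.MPd439b2.X3
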