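import Pool.Agent.Lib.MP_d439b2_co.X3.H3O.Tab

/-!
# MP_d439b2_co, X3/H3O, Mod: further models (helper65)
-/

set_option autoImplicit false

namespace Pool.Agent.MPd439b2.X3

open Pool.Agent.MPd439b2 Pool.Agent.MPd439b2.BU

variable {V : Type} {G : SimpleGraph V}

/-- the vertices of four pairs -/
def e8 (p q : ℕ → V) (i : ℕ) : V := if i % 2 = 0 then p (i / 2) else q (i / 2)

theorem e8_ne {p q : ℕ → V} (hc : CM G 4 p q) {i j : ℕ} (hi : i < 8) (hj : j < i) :
    e8 p q i ≠ e8 p q j := by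
  have hpq : ∀ i < 4, ∀ j < 4, p i ≠ q j := by
    intro i hi j hj
    by_cases hij : i = j
    · subst hij
      exact hc.ne i hi
    · exact (hc.ab i hi j hj hij).ne
  unfold e8
  split_ifs with h1 h2 h2
  · exact (hc.aa _ (by omega) _ (by omega) (by omega)).ne
  · exact hpq _ (by omega) _ (by omega)
  · exact (hpq _ (by omega) _ (by omega)).symm
  · exact (hc.bb _ (by omega) _ (by omega) (by omega)).ne

theorem e8_adj {p q : ℕ → V} (hc : CM G 4 p q) {i j : ℕ} (hi : i < 8) (hj : j < i) :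
    G.Adj (e8 p q i) (e8 p q j) ↔ ¬ (i % 2 = 1 ∧ j + 1 = i) := by
  unfold e8
  split_ifs with h1 h2 h2
  · exact iff_of_true (hc.aa _ (by omega) _ (by omega) (by omega)) (by omega)
  · exact iff_of_true (hc.ab _ (by omega) _ (by omega) (by omega)) (by omega)
  · by_cases h3 : j + 1 = i
    · refine iff_of_false (fun h => ?_) (fun h => h ⟨by omega, h3⟩)
      rw [show i / 2 = j / 2 by omega] at h
      exact hc.na _ (by omega) h.symm
    · exact iff_of_true (hc.ab _ (by omega) _ (by omega) (by omega)).symm (fun h => h3 h.2)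
  · exact iff_of_true (hc.bb _ (by omega) _ (by omega) (by omega)) (by omega)

theorem rJ_8 : ∀ i < 8, ∀ j < i, (rJ i j = true ↔ ¬ (i % 2 = 1 ∧ j + 1 = i)) := by decide

theorem rJ_9 : ∀ j < 8, rJ 8 j = true ∧ rJ 9 j = true ∧ rJ 10 j = true := by decide

/-- the set `S` is disjoint from the pairs and touches all their ends -/
def TA (G : SimpleGraph V) (p q : ℕ → V) (S : Set V) : Prop :=
  ∀ i < 4, p i ∉ S ∧ q i ∉ S ∧ (∃ s ∈ S, G.Adj s (p i)) ∧ ∃ s ∈ S, G.Adj s (q i)

theorem TA.e8 {p q : ℕ → V} {S : Set V} (h : TA G p q S) {i : ℕ} (hi : i < 8) :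
    e8 p q i ∉ S ∧ Tch G S {e8 p q i} := by
  obtain ⟨h1, h2, ⟨s, hs, h3⟩, ⟨s', hs', h4⟩⟩ := h (i / 2) (by omega)
  unfold X3.e8
  split_ifs
  · exact ⟨h1, s, hs, _, rfl, h3⟩
  · exact ⟨h2, s', hs', _, rfl, h4⟩

/-- **the model of `J`**: the four pairs and the path `S, T, U` of the complement -/
theorem J_sets (hG : FrJ G) {p q : ℕ → V} {S T U : Set V} (hc : CM G 4 p q) (cS : Conn G S)
    (cT : Conn G T) (cU : Conn G U) (dST : Disjoint S T) (dTU : Disjoint T U) (dSU : Disjoint S U)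
    (hS : TA G p q S) (hT : TA G p q T) (hU : TA G p q U) (nST : ¬ Tch G S T) (nTU : ¬ Tch G T U)
    (tSU : Tch G S U) : False := by
  let F : ℕ → Set V := fun i => if i < 8 then {e8 p q i} else if i = 8 then S else
    if i = 9 then T else U
  have F1 : ∀ i, i < 8 → F i = {e8 p q i} := fun i hi => if_pos hi
  have F8 : F 8 = S := rfl
  have F9 : F 9 = T := rfl
  have F10 : F 10 = U := rfl
  refine hG.j F ⟨fun _ _ => Set.subset_univ _, ?_, ?_, ?_⟩
  · intro i hi
    by_cases h1 : i < 8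
    · rw [F1 i h1]
      exact Conn.singleton G _
    · have h2 : i = 8 ∨ i = 9 ∨ i = 10 := by omega
      rcases h2 with rfl | rfl | rfl
      · exact cS
      · exact cT
      · exact cU
  · intro i hi j hj
    by_cases h1 : i < 8
    · rw [F1 i h1, F1 j (by omega)]
      exact Set.disjoint_singleton.2 (e8_ne hc h1 hj)
    · have h2 : i = 8 ∨ i = 9 ∨ i = 10 := by omega
      by_cases h3 : j < 8
      · rw [F1 j h3]
        refine Set.disjoint_singleton_right.2 ?_
        rcases h2 with rfl | rfl | rfl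
        · exact (hS.e8 h3).1
        · exact (hT.e8 h3).1
        · exact (hU.e8 h3).1
      · rcases h2 with rfl | rfl | rfl
        · omega
        · have h4 : j = 8 := by omega
          subst h4
          exact dST.symm
        · have h4 : j = 8 ∨ j = 9 := by omega
          rcases h4 with rfl | rfl
          · exact dSU.symm
          · exact dTU.symm
  · intro i hi j hj
    by_cases h1 : i < 8
    · rw [F1 i h1, F1 j (by omega), tch_single, rJ_8 i h1 j hj]
      exact e8_adj hc h1 hj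
    · have h2 : i = 8 ∨ i = 9 ∨ i = 10 := by omega
      by_cases h3 : j < 8
      · rw [F1 j h3]
        obtain ⟨r1, r2, r3⟩ := rJ_9 j h3
        rcases h2 with rfl | rfl | rfl
        · exact iff_of_true (hS.e8 h3).2 r1
        · exact iff_of_true (hT.e8 h3).2 r2
        · exact iff_of_true (hU.e8 h3).2 r3
      · rcases h2 with rfl | rfl | rfl
        · omega
        · have h4 : j = 8 := by omega
          subst h4
          exact iff_of_false (fun h => nST h.symm) (by decide)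
        · have h4 : j = 8 ∨ j = 9 := by omega
          rcases h4 with rfl | rfl
          · exact iff_of_true tSU.symm (by decide)
          · exact iff_of_false (fun h => nTU h.symm) (by decide)

/-- the same for vertices -/
theorem J_vert (hG : FrJ G) {p q : ℕ → V} {s t u : V} (hc : CM G 4 p q)
    (hs : ∀ i < 4, G.Adj s (p i) ∧ G.Adj s (q i)) (ht : ∀ i < 4, G.Adj t (p i) ∧ G.Adj t (q i))
    (hu : ∀ i < 4, G.Adj u (p i) ∧ G.Adj u (q i)) (st : s ≠ t) (tu : t ≠ u) (nst : ¬ G.Adj s t)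
    (ntu : ¬ G.Adj t u) (hsu : G.Adj s u) : False := by
  have key : ∀ w, (∀ i < 4, G.Adj w (p i) ∧ G.Adj w (q i)) → TA G p q {w} := fun w hw i hi =>
    ⟨(hw i hi).1.ne', (hw i hi).2.ne', ⟨w, rfl, (hw i hi).1⟩, ⟨w, rfl, (hw i hi).2⟩⟩
  exact J_sets hG hc (Conn.singleton G s) (Conn.singleton G t) (Conn.singleton G u)
    (Set.disjoint_singleton.2 st) (Set.disjoint_singleton.2 tu) (Set.disjoint_singleton.2 hsu.ne)
    (key s hs) (key t ht) (key u hu) (fun h => nst (tch_single.1 h)) (fun h => ntu (tch_single.1 h))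
    (tch_single.2 hsu)

/-- the vertex model of `K3:0,01,12` -/
theorem H_vert (hG : FrJ G) (a a' b c x y z : V) (h1 : a = a' ∨ G.Adj a a')
    (h2 : G.Adj b a ∨ G.Adj b a') (h3 : G.Adj c a ∨ G.Adj c a') (h4 : G.Adj b c) (h5 : x ≠ a)
    (h6 : x ≠ a') (h7 : y ≠ a) (h8 : y ≠ a') (h9 : z ≠ a) (h10 : z ≠ a')
    (h11 : G.Adj x a ∨ G.Adj x a') (h12 : ¬ G.Adj x b) (h13 : ¬ G.Adj x c)
    (h14 : G.Adj y a ∨ G.Adj y a') (h15 : G.Adj y b) (h16 : ¬ G.Adj y c) (h17 : G.Adj z b)
    (h18 : G.Adj z c) (h19 : ¬ G.Adj z a) (h20 : ¬ G.Adj z a') (h21 : ¬ G.Adj x y)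
    (h22 : ¬ G.Adj x z) (h23 : ¬ G.Adj y z) : False :=
  hG.h3 (H3.pfM1 H3.pfM0 V G a a' b c x y z h1 h2 h3 h4 h5 h6 h7 h8 h9 h10 h11 h12 h13 h14 h15
    h16 h17 h18 h19 h20 h21 h22 h23)

/-- **(Two)** `v` is adjacent to all `x`, `w` to all `y`, both to no `z` -/
theorem two (hG : FrJ G) {x y z : ℕ → V} (hc : CM G 6 x y) (hz : ∀ i < 6, ∀ j < 6, i ≠ j →
    G.Adj (z i) (x j) ∧ G.Adj (z i) (y j) ∧ G.Adj (z i) (z j))
    (hzn : ∀ i < 6, ¬ G.Adj (z i) (x i) ∧ ¬ G.Adj (z i) (y i) ∧ z i ≠ x i ∧ z i ≠ y i) {v w : V}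
    (hv : ∀ i < 6, G.Adj v (x i) ∧ ¬ G.Adj v (y i) ∧ ¬ G.Adj v (z i))
    (hw : ∀ i < 6, ¬ G.Adj w (x i) ∧ G.Adj w (y i) ∧ ¬ G.Adj w (z i)) : False := by
  have hvw : v ≠ w := fun h => (hw 0 (by omega)).1 (h ▸ (hv 0 (by omega)).1)
  by_cases h : G.Adj v w
  · -- the model of `J`
    have hvz : ∀ i < 6, v ≠ z i := fun i hi e => (hzn i hi).1 (e ▸ (hv i hi).1)
    have hwz : ∀ i < 6, w ≠ z i := fun i hi e => (hzn i hi).2.1 (e ▸ (hw i hi).2.1)
    have hvy : ∀ i < 6, v ≠ y i := fun i hi e => hc.na i hi (e ▸ (hv i hi).1).symm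
    have hwx : ∀ i < 6, w ≠ x i := fun i hi e => hc.na i hi (e ▸ (hw i hi).2.1)
    have hc4 : CM G 4 x y := ⟨fun i hi j hj => hc.aa i (by omega) j (by omega),
      fun i hi j hj => hc.bb i (by omega) j (by omega),
      fun i hi j hj => hc.ab i (by omega) j (by omega), fun i hi => hc.na i (by omega),
      fun i hi => hc.ne i (by omega)⟩
    have key : ∀ k, 4 ≤ k → k < 6 → TA G x y {z k} := fun k hk hk' i hi =>
      ⟨(hz k hk' i (by omega) (by omega)).1.ne', (hz k hk' i (by omega) (by omega)).2.1.ne',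
        ⟨_, rfl, (hz k hk' i (by omega) (by omega)).1⟩,
        ⟨_, rfl, (hz k hk' i (by omega) (by omega)).2.1⟩⟩
    refine J_sets hG hc4 (Conn.singleton G (z 4)) (Conn.pair h) (Conn.singleton G (z 5)) ?_ ?_ ?_
      (key 4 (by omega) (by omega)) ?_ (key 5 (by omega) (by omega)) ?_ ?_ ?_
    · rw [Set.disjoint_singleton_left]
      rintro (e | e)
      · exact hvz 4 (by omega) e.symm
      · exact hwz 4 (by omega) e.symm
    · rw [Set.disjoint_singleton_right]
      rintro (e | e)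
      · exact hvz 5 (by omega) e.symm
      · exact hwz 5 (by omega) e.symm
    · exact Set.disjoint_singleton.2 (hz 4 (by omega) 5 (by omega) (by omega)).2.2.ne
    · intro i hi
      refine ⟨?_, ?_, ⟨v, Or.inl rfl, (hv i (by omega)).1⟩, ⟨w, Or.inr rfl, (hw i (by omega)).2.1⟩⟩
      · rintro (e | e)
        · exact (hv i (by omega)).1.ne e.symm
        · exact hwx i (by omega) e.symm
      · rintro (e | e)
        · exact hvy i (by omega) e.symm
        · exact (hw i (by omega)).2.1.ne e.symm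
    · rintro ⟨_, rfl, b, (rfl | rfl), hb⟩
      · exact (hv 4 (by omega)).2.2 hb.symm
      · exact (hw 4 (by omega)).2.2 hb.symm
    · rintro ⟨b, (rfl | rfl), _, rfl, hb⟩
      · exact (hv 5 (by omega)).2.2 hb
      · exact (hw 5 (by omega)).2.2 hb
    · exact tch_single.2 (hz 4 (by omega) 5 (by omega) (by omega)).2.2
  · -- the model of `K3:0,01,12`
    refine H_vert hG (x 0) (x 1) (y 0) (y 1) v (z 1) w (Or.inr (hc.aa 0 (by omega) 1 (by omega)
      (by omega))) (Or.inr (hc.ab 1 (by omega) 0 (by omega) (by omega)).symm)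
      (Or.inl (hc.ab 0 (by omega) 1 (by omega) (by omega)).symm)
      (hc.bb 0 (by omega) 1 (by omega) (by omega)) ?_ ?_ ?_ ?_ ?_ ?_ (Or.inl (hv 0 (by omega)).1)
      (hv 0 (by omega)).2.1 (hv 1 (by omega)).2.1
      (Or.inl (hz 1 (by omega) 0 (by omega) (by omega)).1)
      (hz 1 (by omega) 0 (by omega) (by omega)).2.1 (hzn 1 (by omega)).2.1 (hw 0 (by omega)).2.1
      (hw 1 (by omega)).2.1 (hw 0 (by omega)).1 (hw 1 (by omega)).1 (hv 1 (by omega)).2.2 h
      (fun h' => (hw 1 (by omega)).2.2 h'.symm)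
    · exact (hv 0 (by omega)).1.ne
    · exact (hv 1 (by omega)).1.ne
    · exact (hz 1 (by omega) 0 (by omega) (by omega)).1.ne
    · exact (hzn 1 (by omega)).2.2.1
    · exact fun e => hc.na 0 (by omega) (e ▸ (hw 0 (by omega)).2.1)
    · exact fun e => hc.na 1 (by omega) (e ▸ (hw 1 (by omega)).2.1)

/-- **(Bi)** no vertex is adjacent to all `a` and to no `b` of a large `T1` -/
theorem bi (hG : FrJ G) {a b q : ℕ → V} (hc : T1 G 6 a b q) {w : V}
    (h1 : ∀ i < 6, G.Adj w (a i) ∧ ¬ G.Adj w (b i))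
    (h2 : (∀ i < 6, ¬ G.Adj w (q i)) ∨ ∀ i < 6, G.Adj w (q i)) : False := by
  rcases h2 with h2 | h2
  · refine H_vert hG (b 0) (b 0) (a 1) (a 2) (q 2) (b 2) w (Or.inl rfl)
      (Or.inl (hc.ab.ab 1 (by omega) 0 (by omega) (by omega)))
      (Or.inl (hc.ab.ab 2 (by omega) 0 (by omega) (by omega)))
      (hc.ab.aa 1 (by omega) 2 (by omega) (by omega)) ?_ ?_ ?_ ?_ ?_ ?_
      (Or.inl (hc.qb.ab 2 (by omega) 0 (by omega) (by omega)))
      (fun h => hc.aq 1 (by omega) 2 (by omega) h.symm)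
      (fun h => hc.aq 2 (by omega) 2 (by omega) h.symm)
      (Or.inl (hc.ab.bb 2 (by omega) 0 (by omega) (by omega)))
      (hc.ab.ab 1 (by omega) 2 (by omega) (by omega)).symm
      (fun h => hc.ab.na 2 (by omega) h.symm) (h1 1 (by omega)).1 (h1 2 (by omega)).1
      (h1 0 (by omega)).2 (h1 0 (by omega)).2 (hc.qb.na 2 (by omega))
      (fun h => h2 2 (by omega) h.symm) (fun h => (h1 2 (by omega)).2 h.symm)
    · exact (hc.qb.ab 2 (by omega) 0 (by omega) (by omega)).ne
    · exact (hc.qb.ab 2 (by omega) 0 (by omega) (by omega)).ne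
    · exact (hc.ab.bb 2 (by omega) 0 (by omega) (by omega)).ne
    · exact (hc.ab.bb 2 (by omega) 0 (by omega) (by omega)).ne
    · exact fun e => hc.ab.na 0 (by omega) (e ▸ (h1 0 (by omega)).1).symm
    · exact fun e => hc.ab.na 0 (by omega) (e ▸ (h1 0 (by omega)).1).symm
  · have hc4 : CM G 4 a b := ⟨fun i hi j hj => hc.ab.aa i (by omega) j (by omega),
      fun i hi j hj => hc.ab.bb i (by omega) j (by omega),
      fun i hi j hj => hc.ab.ab i (by omega) j (by omega), fun i hi => hc.ab.na i (by omega),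
      fun i hi => hc.ab.ne i (by omega)⟩
    have hwb : ∀ i < 6, w ≠ b i := fun i hi e => hc.ab.na i hi (e ▸ (h1 i hi).1).symm
    refine J_sets hG hc4 (Conn.singleton G (a 4)) (Conn.singleton G (b 4)) (Conn.pair (h2 4
      (by omega))) ?_ ?_ ?_ ?_ ?_ ?_ ?_ ?_ ?_
    · exact Set.disjoint_singleton.2 (hc.ab.ne 4 (by omega))
    · rw [Set.disjoint_singleton_left]
      rintro (e | e)
      · exact hwb 4 (by omega) e.symm
      · exact hc.qb.ne 4 (by omega) e.symm
    · rw [Set.disjoint_singleton_left]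
      rintro (e | e)
      · exact (h1 4 (by omega)).1.ne e.symm
      · exact hc.ne 4 (by omega) 4 (by omega) e
    · intro i hi
      exact ⟨(hc.ab.aa 4 (by omega) i (by omega) (by omega)).ne',
        (hc.ab.ab 4 (by omega) i (by omega) (by omega)).ne',
        ⟨_, rfl, hc.ab.aa 4 (by omega) i (by omega) (by omega)⟩,
        ⟨_, rfl, hc.ab.ab 4 (by omega) i (by omega) (by omega)⟩⟩
    · intro i hi
      exact ⟨(hc.ab.ab i (by omega) 4 (by omega) (by omega)).ne,
        (hc.ab.bb 4 (by omega) i (by omega) (by omega)).ne',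
        ⟨_, rfl, (hc.ab.ab i (by omega) 4 (by omega) (by omega)).symm⟩,
        ⟨_, rfl, hc.ab.bb 4 (by omega) i (by omega) (by omega)⟩⟩
    · intro i hi
      refine ⟨?_, ?_, ⟨w, Or.inl rfl, (h1 i (by omega)).1⟩,
        ⟨q 4, Or.inr rfl, hc.qb.ab 4 (by omega) i (by omega) (by omega)⟩⟩
      · rintro (e | e)
        · exact (h1 i (by omega)).1.ne e.symm
        · exact hc.ne i (by omega) 4 (by omega) e
      · rintro (e | e)
        · exact hwb i (by omega) e.symm
        · exact (hc.qb.ab 4 (by omega) i (by omega) (by omega)).ne e.symm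
    · exact fun h => hc.ab.na 4 (by omega) (tch_single.1 h)
    · rintro ⟨_, rfl, c, (rfl | rfl), hb⟩
      · exact (h1 4 (by omega)).2 hb.symm
      · exact hc.qb.na 4 (by omega) hb.symm
    · exact ⟨_, rfl, w, Or.inl rfl, (h1 4 (by omega)).1.symm⟩

/-- **(Bii)** no second rail like `a`, `q` -/
theorem bii (hG : FrJ G) {a b q w : ℕ → V} (hc : T1 G 3 a b q) (hw : CM G 3 w b)
    (h1 : ∀ i < 3, ∀ j < 3, ¬ G.Adj (w i) (a j) ∧ ¬ G.Adj (w i) (q j)) : False := by
  refine H_vert hG (b 0) (b 0) (b 1) (a 2) (q 1) (w 2) (a 0) (Or.inl rfl)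
    (Or.inl (hc.ab.bb 1 (by omega) 0 (by omega) (by omega)))
    (Or.inl (hc.ab.ab 2 (by omega) 0 (by omega) (by omega)))
    (hc.ab.ab 2 (by omega) 1 (by omega) (by omega)).symm ?_ ?_ ?_ ?_ ?_ ?_
    (Or.inl (hc.qb.ab 1 (by omega) 0 (by omega) (by omega)))
    (hc.qb.na 1 (by omega)) (fun h => hc.aq 2 (by omega) 1 (by omega) h.symm)
    (Or.inl (hw.ab 2 (by omega) 0 (by omega) (by omega)))
    (hw.ab 2 (by omega) 1 (by omega) (by omega)) (h1 2 (by omega) 2 (by omega)).1
    (hc.ab.ab 0 (by omega) 1 (by omega) (by omega))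
    (hc.ab.aa 0 (by omega) 2 (by omega) (by omega)) (hc.ab.na 0 (by omega))
    (hc.ab.na 0 (by omega)) (fun h => (h1 2 (by omega) 1 (by omega)).2 h.symm)
    (fun h => hc.aq 0 (by omega) 1 (by omega) h.symm) (h1 2 (by omega) 0 (by omega)).1
  · exact (hc.qb.ab 1 (by omega) 0 (by omega) (by omega)).ne
  · exact (hc.qb.ab 1 (by omega) 0 (by omega) (by omega)).ne
  · exact (hw.ab 2 (by omega) 0 (by omega) (by omega)).ne
  · exact (hw.ab 2 (by omega) 0 (by omega) (by omega)).ne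
  · exact hc.ab.ne 0 (by omega)
  · exact hc.ab.ne 0 (by omega)

end Pool.Agent.MPd439b2.X3
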