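import Pool.Agent.Lib.MP_d439b2_co.X3.H3O.Ex

/-!
# MP_d439b2_co, X3/H3O, No: there is no large `T1` (helper65, note 2837 (6))
-/

set_option autoImplicit false

namespace Pool.Agent.MPd439b2.X3

open Pool.Agent.MPd439b2 Pool.Agent.MPd439b2.BU

section

variable {V : Type} {G : SimpleGraph V} {n : ℕ} {a b q : ℕ → V}

theorem T1.symm (h : T1 G n a b q) : T1 G n q b a :=
  ⟨h.qb, h.ab, fun i hi j hj h' => h.aq j hj i hi h'.symm, fun i hi j hj e => h.ne j hj i hi e.symm⟩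

theorem T1.comp (h : T1 G n a b q) {m : ℕ} {σ : ℕ → ℕ} (h1 : ∀ i < m, σ i < n)
    (h2 : ∀ i j, i < j → j < m → σ i < σ j) :
    T1 G m (fun i => a (σ i)) (fun i => b (σ i)) fun i => q (σ i) :=
  ⟨h.ab.comp h1 h2, h.qb.comp h1 h2, fun i hi j hj => h.aq _ (h1 i hi) _ (h1 j hj),
    fun i hi j hj => h.ne _ (h1 i hi) _ (h1 j hj)⟩

/-- the vertices `q k` are big -/
theorem T1.big (h : T1 G n a b q) {k : ℕ} (hk : k < n) : q k ∉ Wl G n a b := by
  intro h1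
  obtain ⟨σ, s1, -⟩ := pickB h1
  exact h.aq _ (s1 0 (by omega)).1 k hk (s1 0 (by omega)).2.1.symm

end

section

variable {V : Type} (G : SimpleGraph V) (n : ℕ) (a b : ℕ → V)

/-- some big vertex is adjacent to an element of the class `k` which is not `b k` -/
def Bb (k : ℕ) : Prop :=
  ∃ w, w ∉ Wl G n a b ∧ ∃ x ∈ Lc G n a b k, x ≠ b k ∧ G.Adj w x

end

theorem few3 (m₀ : ℕ) : ∃ N : ℕ, ∀ (V : Type) (G : SimpleGraph V) (n : ℕ) (a b q : ℕ → V), FrJ G →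
    (∀ x v, ¬ Thin G m₀ x v) → T1 G n a b q → 9 ≤ n →
    {k | k < n ∧ (G1 G n a b k ∧ Bb G n a b k)}.ncard ≤ N := by
  obtain ⟨N₁, hN₁⟩ := rail 12 (by omega)
  obtain ⟨N, hN⟩ := useA m₀ N₁
  refine ⟨N, fun V G n a b q hG hT hc hn => ?_⟩
  by_contra hcon
  obtain ⟨σ, h1, h2⟩ := pickB (n := n) (m := N) (P := fun k => G1 G n a b k ∧ Bb G n a b k)
    (by omega)
  have h3 : ∀ i, ∃ w x, i < N → w ∉ Wl G n a b ∧ x ∈ Lc G n a b (σ i) ∧ x ≠ b (σ i) ∧
      G.Adj w x := by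
    intro i
    by_cases hi : i < N
    · obtain ⟨w, hw, x, hx, h4, h5⟩ := (h1 i hi).2.2
      exact ⟨w, x, fun _ => ⟨hw, hx, h4, h5⟩⟩
    · exact ⟨a 0, a 0, fun h => absurd h hi⟩
  choose w x h4 using h3
  have F1 : Fm G n a b N σ (fun i => b (σ i)) x w := ⟨fun i hi => (h1 i hi).1, inc_ne h2,
    fun i hi => b_lc hc.ab (by omega) (h1 i hi).1, fun i hi => (h4 i hi).2.1,
    fun i hi => (h4 i hi).2.2.1.symm, fun i hi => (h4 i hi).1⟩
  obtain ⟨u, hu, τ, t1, t2, t3⟩ := hN V G n a b σ _ _ _ hG hT hc.ab hn F1 fun i hi =>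
    ⟨fun h => (h4 i hi).2.2.1 ((h1 i hi).2.1 _ (h4 i hi).1 _ (h4 i hi).2.1 _
      (b_lc hc.ab (by omega) (h1 i hi).1) (h4 i hi).2.2.2 h), (h4 i hi).2.2.2⟩
  -- the rail of the `q`'s
  have hlt : ∀ i < N₁, σ (τ i) < n := fun i hi => (h1 _ (t1 i hi)).1
  have hst : ∀ i j, i < j → j < N₁ → σ (τ i) < σ (τ j) := fun i j hij hj =>
    h2 _ _ (t2 i j hij hj) (t1 j hj)
  have F2 : Fm G n a b N₁ (fun i => σ (τ i)) (fun i => x (τ i)) (fun i => b (σ (τ i)))
      fun i => q (σ (τ i)) := by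
    refine ⟨hlt, inc_ne hst, fun i hi => (h4 _ (t1 i hi)).2.1,
      fun i hi => b_lc hc.ab (by omega) (hlt i hi), fun i hi => (h4 _ (t1 i hi)).2.2.1,
      fun i hi => hc.big (hlt i hi)⟩
  obtain ⟨ρ, r1, r2, c, hc', hR⟩ := hN₁ V G n a b _ _ _ _ hG hc.ab hn F2 fun i j hij hj =>
    (hc.qb.aa _ (hlt j hj) _ (hlt i (by omega)) (hst i j hij hj).ne').ne
  have hlt2 : ∀ i < 12, σ (τ (ρ i)) < n := fun i hi => hlt _ (r1 i hi)
  have hst2 : ∀ i j, i < j → j < 12 → σ (τ (ρ i)) < σ (τ (ρ j)) := fun i j hij hj =>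
    hst _ _ (r2 i j hij hj) (r1 j hj)
  have g2 : c.testBit 2 = true := (hR.a2 0 1 (by omega) (by omega)).1
    (hc.qb.ab _ (hlt2 1 (by omega)) _ (hlt2 0 (by omega)) (hst2 0 1 (by omega) (by omega)).ne')
  have g6 : c.testBit 6 = true := (hR.b2 0 1 (by omega) (by omega)).1
    (hc.qb.ab _ (hlt2 0 (by omega)) _ (hlt2 1 (by omega)) (hst2 0 1 (by omega) (by omega)).ne)
  have g4 : ¬ c.testBit 4 = true := fun h => hc.qb.na _ (hlt2 0 (by omega)) ((hR.d2 0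
    (by omega)).2 h)
  have g : ∀ c ∈ [0, 1, 8, 16, 84, 85, 42, 43, 69, 35], c.testBit 2 = true → c.testBit 6 = true →
      ¬ c.testBit 4 = true → c = 69 := by decide +kernel
  obtain rfl := g c hc' g2 g6 g4
  have hqx : ∀ i < 12, ∀ j < 12, ¬ G.Adj (q (σ (τ (ρ i)))) (x (τ (ρ j))) := by
    intro i hi j hj h
    rcases lt_trichotomy i j with hij | hij | hij
    · exact absurd ((hR.b1 i j hij hj).1 h) (by decide)
    · subst hij
      exact absurd ((hR.d1 i hi).1 h) (by decide)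
    · exact absurd ((hR.a1 j i hij hi).1 h) (by decide)
  -- six indices on which `u` is constant on the `q`'s
  have h5 : ∃ μ : ℕ → ℕ, (∀ i < 6, μ i < 12) ∧ (∀ i j, i < j → j < 6 → μ i < μ j) ∧
      ((∀ i < 6, ¬ G.Adj u (q (σ (τ (ρ (μ i)))))) ∨ ∀ i < 6, G.Adj u (q (σ (τ (ρ (μ i)))))) := by
    have h6 := ncard_split 12 fun i => G.Adj u (q (σ (τ (ρ i))))
    by_cases h7 : 6 ≤ {k | k < 12 ∧ G.Adj u (q (σ (τ (ρ k))))}.ncard
    · obtain ⟨μ, m1, m2⟩ := pickB h7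
      exact ⟨μ, fun i hi => (m1 i hi).1, m2, Or.inr fun i hi => (m1 i hi).2⟩
    · obtain ⟨μ, m1, m2⟩ := pickB (n := 12) (m := 6)
        (P := fun k => ¬ G.Adj u (q (σ (τ (ρ k))))) (by omega)
      exact ⟨μ, fun i hi => (m1 i hi).1, m2, Or.inl fun i hi => (m1 i hi).2⟩
  obtain ⟨μ, m1, m2, m3⟩ := h5
  have hlt3 : ∀ i < 6, σ (τ (ρ (μ i))) < n := fun i hi => hlt2 _ (m1 i hi)
  have hst3 : ∀ i j, i < j → j < 6 → σ (τ (ρ (μ i))) < σ (τ (ρ (μ j))) := fun i j hij hj =>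
    hst2 _ _ (m2 i j hij hj) (m1 j hj)
  have hN1 : ∀ i < 6, τ (ρ (μ i)) < N := fun i hi => t1 _ (r1 _ (m1 i hi))
  have hcm : CM G 6 (fun i => x (τ (ρ (μ i)))) fun i => b (σ (τ (ρ (μ i)))) := by
    have h8 := F2.comp (m := 6) (σ := fun i => ρ (μ i)) (fun i hi => r1 _ (m1 i hi))
      (fun i hi j hj hij => inc_ne r2 _ (m1 i hi) _ (m1 j hj) (inc_ne m2 i hi j hj hij))
    exact h8.cm hG hc.ab hn
  have hT1 : T1 G 6 (fun i => x (τ (ρ (μ i)))) (fun i => b (σ (τ (ρ (μ i)))))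
      fun i => q (σ (τ (ρ (μ i)))) :=
    ⟨hcm, hc.qb.comp hlt3 hst3, fun i hi j hj h => hqx _ (m1 j hj) _ (m1 i hi) h.symm,
      fun i hi j hj e => hc.big (hlt3 j hj) (by
        rw [← e]
        exact (h4 _ (hN1 i hi)).2.1.1)⟩
  exact bi hG hT1 (fun i hi => (t3 _ (r1 _ (m1 i hi))).symm) m3

/-- **No.** -/
theorem noT1 (m₀ : ℕ) (β : ℕ → ℕ) : ∃ c₀ n₀ : ℕ, ∀ (V : Type) [Finite V] (G : SimpleGraph V)
    (n : ℕ) (a b q : ℕ → V), FrJ G → (∀ x v, ¬ Thin G m₀ x v) → Rep.Link β c₀ G → n₀ ≤ n →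
    ¬ T1 G n a b q := by
  classical
  obtain ⟨N₁, hN₁⟩ := few1
  obtain ⟨N₃, hN₃⟩ := few3 m₀
  obtain ⟨s, hs⟩ := useC m₀ 3
  obtain ⟨R, hR⟩ := Rep.rk3 s
  obtain ⟨B, hB⟩ : ∃ B, B = β (3 + R) + 1 := ⟨_, rfl⟩
  refine ⟨3 + R, 9 + 2 * N₁ + 2 * N₃ + 2 * B, fun V _ G n a b q hG hT hL hn hc => ?_⟩
  have hn9 : 9 ≤ n := by omega
  have h1 := hN₁ V G n a b hG hc.ab hn9
  have h1' := hN₁ V G n q b hG hc.qb hn9
  have h2 := hN₃ V G n a b q hG hT hc hn9
  have h2' := hN₃ V G n q b a hG hT hc.symm hn9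
  have h3 : 2 * B ≤ {k | k < n ∧ (¬ Bb G n a b k ∧ ¬ Bb G n q b k)}.ncard := by
    have h4 := ncard_split n fun k => ¬ Bb G n a b k ∧ ¬ Bb G n q b k
    have h5 : {k | k < n ∧ ¬ (¬ Bb G n a b k ∧ ¬ Bb G n q b k)} ⊆
        ({k | k < n ∧ ¬ G1 G n a b k} ∪ {k | k < n ∧ (G1 G n a b k ∧ Bb G n a b k)}) ∪
        ({k | k < n ∧ ¬ G1 G n q b k} ∪ {k | k < n ∧ (G1 G n q b k ∧ Bb G n q b k)}) := by
      rintro k ⟨hk, hk'⟩
      by_cases h6 : Bb G n a b k
      · by_cases h7 : G1 G n a b k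
        · exact Or.inl (Or.inr ⟨hk, h7, h6⟩)
        · exact Or.inl (Or.inl ⟨hk, h7⟩)
      · have h8 : Bb G n q b k := by
          by_contra h8
          exact hk' ⟨h6, h8⟩
        by_cases h7 : G1 G n q b k
        · exact Or.inr (Or.inr ⟨hk, h7, h8⟩)
        · exact Or.inr (Or.inl ⟨hk, h7⟩)
    have h6 := Set.ncard_le_ncard h5 (((fin_lt n _).union (fin_lt n _)).union
      ((fin_lt n _).union (fin_lt n _)))
    have h7 := Set.ncard_union_le ({k | k < n ∧ ¬ G1 G n a b k} ∪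
      {k | k < n ∧ (G1 G n a b k ∧ Bb G n a b k)})
      ({k | k < n ∧ ¬ G1 G n q b k} ∪ {k | k < n ∧ (G1 G n q b k ∧ Bb G n q b k)})
    have h8 := Set.ncard_union_le {k | k < n ∧ ¬ G1 G n a b k}
      {k | k < n ∧ (G1 G n a b k ∧ Bb G n a b k)}
    have h9 := Set.ncard_union_le {k | k < n ∧ ¬ G1 G n q b k}
      {k | k < n ∧ (G1 G n q b k ∧ Bb G n q b k)}
    omega
  obtain ⟨σ, s1, s2⟩ := pickB h3
  have l1 : ∀ i < 2 * B, σ i < n := fun i hi => (s1 i hi).1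
  -- the three parts of the set
  obtain ⟨X, hX⟩ : ∃ X, X = Xs G n a b B σ ∪ Xs G n q b B σ := ⟨_, rfl⟩
  obtain ⟨Xb, hXb⟩ : ∃ Xb : Set V, Xb = {x | ∃ i < B, x = b (σ i)} := ⟨_, rfl⟩
  have hbX : ∀ i < B, b (σ i) ∈ Xs G n a b B σ := fun i hi =>
    ⟨i, hi, b_lc hc.ab (by omega) (l1 i (by omega))⟩
  obtain ⟨Y, hY⟩ : ∃ Y : Set V, Y = {y | y ∉ Wl G n a b ∧ y ∉ Wl G n q b} := ⟨_, rfl⟩
  -- no pattern between `Xb` and `Y`
  have hP : ¬ Rep.Has3 G Xb Y s := by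
    rintro ⟨p, v, hpv⟩
    have hp : ∀ i < s, p i ∈ Xb := by
      rcases hpv with h | h | h
      · exact h.1
      · exact h.1
      · exact h.1
    have hv : ∀ i < s, v i ∈ Y := by
      rcases hpv with h | h | h
      · exact h.2.1
      · exact h.2.1
      · exact h.2.1
    have hR : (∀ i < s, ∀ j < s, (G.Adj (p i) (v j) ↔ i = j)) ∨
        (∀ i < s, ∀ j < s, (G.Adj (p i) (v j) ↔ i ≠ j)) ∨
        ∀ i < s, ∀ j < s, (G.Adj (p i) (v j) ↔ i ≤ j) := by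
      rcases hpv with h | h | h
      · exact Or.inl h.2.2
      · exact Or.inr (Or.inl h.2.2)
      · exact Or.inr (Or.inr h.2.2)
    have hpne : ∀ i j, i < j → j < s → p i ≠ p j := by
      intro i j hij hj e
      rcases hR with h | h | h
      · have h1 := (h i (by omega) i (by omega)).2 rfl
        rw [e] at h1
        exact hij.ne' ((h j hj i (by omega)).1 h1)
      · have h1 := (h j hj i (by omega)).2 hij.ne'
        rw [← e] at h1
        exact (h i (by omega) i (by omega)).1 h1 rfl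
      · have h1 := (h i (by omega) i (by omega)).2 le_rfl
        rw [e] at h1
        have := (h j hj i (by omega)).1 h1
        omega
    have hκ : ∀ i, ∃ k, i < s → k < B ∧ p i = b (σ k) := by
      intro i
      by_cases hi : i < s
      · have h4 := hp i hi
        rw [hXb] at h4
        obtain ⟨k, hk, hk'⟩ := h4
        exact ⟨k, fun _ => ⟨hk, hk'⟩⟩
      · exact ⟨0, fun h => absurd h hi⟩
    choose κ hκ using hκ
    have hlt : ∀ i < s, σ (κ i) < n := fun i hi => l1 _ (by have := (hκ i hi).1; omega)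
    have hinj : ∀ i < s, ∀ j < s, i ≠ j → σ (κ i) ≠ σ (κ j) := by
      intro i hi j hj hij e
      have h4 : p i = p j := by rw [(hκ i hi).2, (hκ j hj).2, e]
      rcases lt_or_gt_of_ne hij with h | h
      · exact hpne i j h hj h4
      · exact hpne j i h hi h4.symm
    have hF : Fm G n a b s (fun i => σ (κ i)) p (fun i => a (σ (κ i))) v := by
      refine ⟨hlt, hinj, fun i hi => ?_, fun i hi => a_lc hc.ab (by omega) (hlt i hi),
        fun i hi => ?_, fun i hi => ?_⟩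
      · rw [(hκ i hi).2]
        exact b_lc hc.ab (by omega) (hlt i hi)
      · rw [(hκ i hi).2]
        exact (hc.ab.ne _ (hlt i hi)).symm
      · have h4 := hv i hi
        rw [hY] at h4
        exact h4.1
    obtain ⟨ρ, r1, r2, r3⟩ := hs V G n a b _ _ _ _ hG hT hc.ab hn9 hF hR
    have hbk : ∀ i < 3, p (ρ i) = b (σ (κ (ρ i))) := fun i hi => (hκ _ (r1 i hi)).2
    have l2 : ∀ i < 3, σ (κ (ρ i)) < n := fun i hi => hlt _ (r1 i hi)
    have l3 : ∀ i < 3, ∀ j < 3, i ≠ j → σ (κ (ρ i)) ≠ σ (κ (ρ j)) := fun i hi j hj hij =>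
      hinj _ (r1 i hi) _ (r1 j hj) (inc_ne r2 i hi j hj hij)
    have hT3 : T1 G 3 (fun i => a (σ (κ (ρ i)))) (fun i => b (σ (κ (ρ i))))
        fun i => q (σ (κ (ρ i))) := by
      refine ⟨⟨?_, ?_, ?_, ?_, ?_⟩, ⟨?_, ?_, ?_, ?_, ?_⟩, ?_, ?_⟩
      · exact fun i hi j hj hij => hc.ab.aa _ (l2 i hi) _ (l2 j hj) (l3 i hi j hj hij)
      · exact fun i hi j hj hij => hc.ab.bb _ (l2 i hi) _ (l2 j hj) (l3 i hi j hj hij)
      · exact fun i hi j hj hij => hc.ab.ab _ (l2 i hi) _ (l2 j hj) (l3 i hi j hj hij)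
      · exact fun i hi => hc.ab.na _ (l2 i hi)
      · exact fun i hi => hc.ab.ne _ (l2 i hi)
      · exact fun i hi j hj hij => hc.qb.aa _ (l2 i hi) _ (l2 j hj) (l3 i hi j hj hij)
      · exact fun i hi j hj hij => hc.qb.bb _ (l2 i hi) _ (l2 j hj) (l3 i hi j hj hij)
      · exact fun i hi j hj hij => hc.qb.ab _ (l2 i hi) _ (l2 j hj) (l3 i hi j hj hij)
      · exact fun i hi => hc.qb.na _ (l2 i hi)
      · exact fun i hi => hc.qb.ne _ (l2 i hi)
      · exact fun i hi j hj => hc.aq _ (l2 i hi) _ (l2 j hj)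
      · exact fun i hi j hj => hc.ne _ (l2 i hi) _ (l2 j hj)
    refine bii hG hT3 (w := fun i => v (ρ i)) ?_ ?_
    · have h4 := r3.qb
      refine ⟨h4.aa, fun i hi j hj hij => ?_, fun i hi j hj hij => ?_, fun i hi => ?_,
        fun i hi => ?_⟩
      · exact hc.ab.bb _ (l2 i hi) _ (l2 j hj) (l3 i hi j hj hij)
      · have h5 := h4.ab i hi j hj hij
        rwa [hbk j hj] at h5
      · have h5 := h4.na i hi
        rwa [hbk i hi] at h5
      · have h5 := h4.ne i hi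
        rwa [hbk i hi] at h5
    · intro i hi j hj
      refine ⟨fun h => r3.aq j hj i hi h.symm, fun h => ?_⟩
      have h4 := hv _ (r1 i hi)
      rw [hY] at h4
      have h5 : κ (ρ j) < 2 * B := by have := (hκ _ (r1 j hj)).1; omega
      exact (s1 _ h5).2.2 ⟨_, h4.2, _, a_lc hc.qb (by omega) (l2 j hj), hc.qb.ne _ (l2 j hj), h⟩
  have hrk := hR V G _ _ hP
  -- the rank of the cut
  have hA : ∀ (a q : ℕ → V), CM G n a b → (∀ i < B, ¬ Bb G n a b (σ i)) →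
      LK.rk G (Xs G n a b B σ \ Xb) (Xs G n a b B σ)ᶜ ≤ 1 := by
    intro a q hab hB'
    refine Rep.rk_col G fun y hy => ?_
    by_cases h4 : y ∈ Wl G n a b
    · left
      rintro x ⟨⟨i, hi, hx⟩, -⟩
      exact (lc_out hG hab (by omega) (l1 i (by omega)) hx h4 (fun h => hy ⟨i, hi, h⟩)).symm
    · right
      rintro x ⟨⟨i, hi, hx⟩, hxb⟩ h5
      refine hB' i hi ⟨y, h4, x, hx, fun h6 => hxb ?_, h5.symm⟩
      rw [hXb]
      exact ⟨i, hi, h6⟩
  have e1 := hA a q hc.ab fun i hi => (s1 i (by omega)).2.1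
  have e2 := hA q a hc.qb fun i hi => (s1 i (by omega)).2.2
  have e3 : LK.rk G Xb {y | y ∈ Xᶜ ∧ y ∉ Y} ≤ 1 := by
    refine Rep.rk_row G fun x hx => Or.inl ?_
    rw [hXb] at hx
    obtain ⟨i, hi, rfl⟩ := hx
    rintro y ⟨hy, hyY⟩
    rw [hX] at hy
    by_cases h4 : y ∈ Wl G n a b
    · exact (lc_out hG hc.ab (by omega) (l1 i (by omega)) (b_lc hc.ab (by omega) (l1 i (by omega)))
        h4 (fun h => hy (Or.inl ⟨i, hi, h⟩))).symm
    · have h5 : y ∈ Wl G n q b := by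
        by_contra h5
        exact hyY (by rw [hY]; exact ⟨h4, h5⟩)
      exact (lc_out hG hc.qb (by omega) (l1 i (by omega)) (b_lc hc.qb (by omega) (l1 i (by omega)))
        h5 (fun h => hy (Or.inr ⟨i, hi, h⟩))).symm
  have hcr : LK.cr G X ≤ 3 + R := by
    unfold LK.cr
    have f1 : X ⊆ (Xs G n a b B σ \ Xb) ∪ ((Xs G n q b B σ \ Xb) ∪ Xb) := by
      intro x hx
      rw [hX] at hx
      by_cases h4 : x ∈ Xb
      · exact Or.inr (Or.inr h4)
      · rcases hx with hx | hx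
        · exact Or.inl ⟨hx, h4⟩
        · exact Or.inr (Or.inl ⟨hx, h4⟩)
    have f2 : Xᶜ ⊆ (Xs G n a b B σ)ᶜ := by
      rw [hX]
      exact Set.compl_subset_compl.2 Set.subset_union_left
    have f3 : Xᶜ ⊆ (Xs G n q b B σ)ᶜ := by
      rw [hX]
      exact Set.compl_subset_compl.2 Set.subset_union_right
    have f4 : Xᶜ ⊆ {y | y ∈ Xᶜ ∧ y ∉ Y} ∪ Y := by
      intro y hy
      by_cases h4 : y ∈ Y
      · exact Or.inr h4
      · exact Or.inl ⟨hy, h4⟩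
    have g1 := Rep.rk_mono G f1 (Set.Subset.refl Xᶜ)
    have g2 := Rep.rk_union G (Xs G n a b B σ \ Xb) ((Xs G n q b B σ \ Xb) ∪ Xb) Xᶜ
    have g3 := Rep.rk_union G (Xs G n q b B σ \ Xb) Xb Xᶜ
    have g4 := Rep.rk_mono G (Set.Subset.refl (Xs G n a b B σ \ Xb)) f2
    have g5 := Rep.rk_mono G (Set.Subset.refl (Xs G n q b B σ \ Xb)) f3
    have g6 := Rep.rk_mono G (Set.Subset.refl Xb) f4
    have g7 := Rep.rk_union_right G Xb {y | y ∈ Xᶜ ∧ y ∉ Y} Y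
    omega
  refine Rep.link_false hL le_rfl hcr ?_ ?_
  · have h4 := ncard_ge (B := B) (S := X) (fun i => b (σ i))
      (fun i hi => by rw [hX]; exact Or.inl (hbX i hi))
      fun i hi j hj hij => (hc.ab.bb _ (l1 i (by omega)) _ (l1 j (by omega))
        (inc_ne s2 i (by omega) j (by omega) hij)).ne
    omega
  · have h4 := ncard_ge (B := B) (S := Xᶜ) (fun i => b (σ (B + i)))
      (fun i hi => by
        rw [hX]
        rintro (⟨j, hj, h5⟩ | ⟨j, hj, h5⟩)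
        · exact lc_dis hG hc.ab (by omega) (l1 (B + i) (by omega)) (l1 j (by omega))
            (inc_ne s2 (B + i) (by omega) j (by omega) (by omega))
            (b_lc hc.ab (by omega) (l1 (B + i) (by omega))) h5
        · exact lc_dis hG hc.qb (by omega) (l1 (B + i) (by omega)) (l1 j (by omega))
            (inc_ne s2 (B + i) (by omega) j (by omega) (by omega))
            (b_lc hc.qb (by omega) (l1 (B + i) (by omega))) h5)
      fun i hi j hj hij => (hc.ab.bb _ (l1 (B + i) (by omega)) _ (l1 (B + j) (by omega))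
        (inc_ne s2 (B + i) (by omega) (B + j) (by omega) (by omega))).ne
    omega

/-- **Theorem O3.** In a graph without `K3:0,01,12` and `J` in which every cut of small rank has a small
side and which has no thin spider with `m₀` legs there is no large co-matching of two cliques. -/
theorem noCM (m₀ : ℕ) (β : ℕ → ℕ) : ∃ c₀ n₀ : ℕ, ∀ (V : Type) [Finite V] (G : SimpleGraph V)
    (a b : ℕ → V), FrJ G → (∀ x v, ¬ Thin G m₀ x v) → Rep.Link β c₀ G → ¬ CM G n₀ a b := by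
  obtain ⟨c₁, n₁, h1⟩ := noT1 m₀ β
  obtain ⟨c₂, n₂, h2⟩ := exT1 m₀ n₁ β
  refine ⟨max c₁ c₂, n₂, fun V _ G a b hG hT hL hc => ?_⟩
  have hL1 : Rep.Link β c₁ G := fun c hc' => hL c (hc'.trans (le_max_left _ _))
  have hL2 : Rep.Link β c₂ G := fun c hc' => hL c (hc'.trans (le_max_right _ _))
  obtain ⟨a', b', q, h3⟩ := h2 V G n₂ a b hG hT hL2 le_rfl hc
  exact h1 V G n₁ a' b' q hG hT hL1 le_rfl h3

end Pool.Agent.MPd439b2.X3
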