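import Pool.Agent.Lib.MP_d439b2_co.X3.H3O.St
import Pool.Agent.Lib.MP_d439b2_co.W.RamC

/-!
# MP_d439b2_co, X3/H3O, Rail: families of big vertices (helper65, note 2837 (2))
-/

set_option autoImplicit false

namespace Pool.Agent.MPd439b2.X3

open Pool.Agent.MPd439b2 Pool.Agent.MPd439b2.BU

/-- `N` different classes, for each of them two elements `x i ≠ y i` and a big vertex `v i` -/
structure Fm {V : Type} (G : SimpleGraph V) (n : ℕ) (a b : ℕ → V) (N : ℕ) (κ : ℕ → ℕ)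
    (x y v : ℕ → V) : Prop where
  lt : ∀ i < N, κ i < n
  inj : ∀ i < N, ∀ j < N, i ≠ j → κ i ≠ κ j
  hx : ∀ i < N, x i ∈ Lc G n a b (κ i)
  hy : ∀ i < N, y i ∈ Lc G n a b (κ i)
  ne : ∀ i < N, x i ≠ y i
  hv : ∀ i < N, v i ∉ Wl G n a b

/-- the code with given bits -/
def cd (b0 b1 b2 b3 b4 b5 b6 : Bool) : ℕ :=
  b0.toNat + 2 * b1.toNat + 4 * b2.toNat + 8 * b3.toNat + 16 * b4.toNat + 32 * b5.toNat +
    64 * b6.toNat

theorem cd_bits : ∀ b0 b1 b2 b3 b4 b5 b6 : Bool, cd b0 b1 b2 b3 b4 b5 b6 < 128 ∧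
    (cd b0 b1 b2 b3 b4 b5 b6).testBit 0 = b0 ∧ (cd b0 b1 b2 b3 b4 b5 b6).testBit 1 = b1 ∧
    (cd b0 b1 b2 b3 b4 b5 b6).testBit 2 = b2 ∧ (cd b0 b1 b2 b3 b4 b5 b6).testBit 3 = b3 ∧
    (cd b0 b1 b2 b3 b4 b5 b6).testBit 4 = b4 ∧ (cd b0 b1 b2 b3 b4 b5 b6).testBit 5 = b5 ∧
    (cd b0 b1 b2 b3 b4 b5 b6).testBit 6 = b6 := by
  decide +kernel

section

variable {V : Type} {G : SimpleGraph V} {n : ℕ} {a b : ℕ → V} {N : ℕ} {κ : ℕ → ℕ} {x y v : ℕ → V}

theorem Fm.comp (h : Fm G n a b N κ x y v) {m : ℕ} {σ : ℕ → ℕ} (h1 : ∀ i < m, σ i < N)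
    (h2 : ∀ i < m, ∀ j < m, i ≠ j → σ i ≠ σ j) :
    Fm G n a b m (fun i => κ (σ i)) (fun i => x (σ i)) (fun i => y (σ i)) fun i => v (σ i) :=
  ⟨fun i hi => h.lt _ (h1 i hi), fun i hi j hj hij => h.inj _ (h1 i hi) _ (h1 j hj)
    (h2 i hi j hj hij), fun i hi => h.hx _ (h1 i hi), fun i hi => h.hy _ (h1 i hi),
    fun i hi => h.ne _ (h1 i hi), fun i hi => h.hv _ (h1 i hi)⟩

theorem Fm.symm (h : Fm G n a b N κ x y v) : Fm G n a b N κ y x v :=
  ⟨h.lt, h.inj, h.hy, h.hx, fun i hi => (h.ne i hi).symm, h.hv⟩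

theorem Fm.cm (hG : FrJ G) (hc : CM G n a b) (hn : 9 ≤ n) (h : Fm G n a b N κ x y v) :
    CM G N x y :=
  ⟨fun i hi j hj hij => lc_diff hG hc (by omega) (h.lt i hi) (h.lt j hj) (h.inj i hi j hj hij)
      (h.hx i hi) (h.hx j hj),
    fun i hi j hj hij => lc_diff hG hc (by omega) (h.lt i hi) (h.lt j hj) (h.inj i hi j hj hij)
      (h.hy i hi) (h.hy j hj),
    fun i hi j hj hij => lc_diff hG hc (by omega) (h.lt i hi) (h.lt j hj) (h.inj i hi j hj hij)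
      (h.hx i hi) (h.hy j hj),
    fun i hi => lc_same hG hc (by omega) (h.lt i hi) (h.hx i hi) (h.hy i hi), h.ne⟩

/-- a big vertex is adjacent to both `x i` and `y i` for at most three `i` -/
theorem Fm.four (hG : FrJ G) (hc : CM G n a b) (hn : 9 ≤ n) (h : Fm G n a b N κ x y v) {w : V}
    (hw : w ∉ Wl G n a b) {σ : ℕ → ℕ} (h1 : ∀ i < 4, σ i < N)
    (h2 : ∀ i < 4, ∀ j < 4, i ≠ j → σ i ≠ σ j)
    (h3 : ∀ i < 4, G.Adj w (x (σ i)) ∧ G.Adj w (y (σ i))) : False := by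
  have h4 := big3 hG hc hn hw
  have h5 : (fun i => κ (σ i)) '' ((Finset.range 4 : Finset ℕ) : Set ℕ) ⊆
      {k | k < n ∧ ∃ x y, x ∈ Lc G n a b k ∧ y ∈ Lc G n a b k ∧ x ≠ y ∧ G.Adj w x ∧ G.Adj w y} := by
    rintro _ ⟨i, hi, rfl⟩
    have hi' : i < 4 := by simpa using hi
    exact ⟨h.lt _ (h1 i hi'), _, _, h.hx _ (h1 i hi'), h.hy _ (h1 i hi'), h.ne _ (h1 i hi'),
      (h3 i hi').1, (h3 i hi').2⟩
  have h6 := Set.ncard_le_ncard h5 (fin_lt n _)
  rw [Set.InjOn.ncard_image, Set.ncard_coe_finset, Finset.card_range] at h6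
  · omega
  · intro i hi j hj hij
    have hi' : i < 4 := by simpa using hi
    have hj' : j < 4 := by simpa using hj
    by_contra hne
    exact h.inj _ (h1 i hi') _ (h1 j hj') (h2 i hi' j hj' hne) hij

theorem inc_ne {m : ℕ} {σ : ℕ → ℕ} (h : ∀ i j, i < j → j < m → σ i < σ j) :
    ∀ i < m, ∀ j < m, i ≠ j → σ i ≠ σ j := by
  intro i hi j hj hij
  rcases lt_or_gt_of_ne hij with h' | h'
  · exact (h i j h' hj).ne
  · exact (h j i h' hi).ne'

theorem okc_list : ∀ c < 128, okc c = true → (c.testBit 1 = true ∧ c.testBit 2 = true) ∨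
    (c.testBit 5 = true ∧ c.testBit 6 = true) ∨
    c ∈ [0, 1, 8, 16, 84, 85, 42, 43, 69, 35] := by
  decide +kernel

end

/-- **the rail lemma** -/
theorem rail (m : ℕ) (hm : 6 ≤ m) : ∃ N : ℕ, ∀ (V : Type) (G : SimpleGraph V) (n : ℕ)
    (a b : ℕ → V) (κ : ℕ → ℕ) (x y v : ℕ → V), FrJ G → CM G n a b → 9 ≤ n →
    Fm G n a b N κ x y v → (∀ i j, i < j → j < N → v j ≠ v i) →
    ∃ σ : ℕ → ℕ, (∀ i < m, σ i < N) ∧ (∀ i j, i < j → j < m → σ i < σ j) ∧
      ∃ c ∈ [0, 1, 8, 16, 84, 85, 42, 43, 69, 35],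
        HR G m (fun i => x (σ i)) (fun i => y (σ i)) (fun i => v (σ i)) c := by
  classical
  obtain ⟨N, hN⟩ := W.ramC (Fin 7 → Bool) (m + 1)
  refine ⟨N, fun V G n a b κ x y v hG hc hn hF hne => ?_⟩
  obtain ⟨σ, col, h1, h2, h3⟩ := hN fun i j => ![decide (G.Adj (v j) (v i)),
    decide (G.Adj (v j) (x i)), decide (G.Adj (v j) (y i)), decide (G.Adj (v i) (x i)),
    decide (G.Adj (v i) (y i)), decide (G.Adj (v i) (x j)), decide (G.Adj (v i) (y j))]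
  obtain ⟨c, hcd⟩ : ∃ c, c = cd (col 0) (col 1) (col 2) (col 3) (col 4) (col 5) (col 6) := ⟨_, rfl⟩
  obtain ⟨c0, c1, c2, c3, c4, c5, c6, c7⟩ := cd_bits (col 0) (col 1) (col 2) (col 3) (col 4)
    (col 5) (col 6)
  rw [← hcd] at c0 c1 c2 c3 c4 c5 c6 c7
  have g : ∀ i j, i < j → j < m + 1 → ((G.Adj (v (σ j)) (v (σ i)) ↔ c.testBit 0 = true) ∧
      (G.Adj (v (σ j)) (x (σ i)) ↔ c.testBit 1 = true) ∧
      (G.Adj (v (σ j)) (y (σ i)) ↔ c.testBit 2 = true) ∧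
      (G.Adj (v (σ i)) (x (σ i)) ↔ c.testBit 3 = true) ∧
      (G.Adj (v (σ i)) (y (σ i)) ↔ c.testBit 4 = true) ∧
      (G.Adj (v (σ i)) (x (σ j)) ↔ c.testBit 5 = true) ∧
      (G.Adj (v (σ i)) (y (σ j)) ↔ c.testBit 6 = true)) := by
    intro i j hij hj
    have h4 := h3 i j hij hj
    rw [c1, c2, c3, c4, c5, c6, c7]
    rw [← h4]
    simp
  have hlt : ∀ i < m, σ i < N := fun i hi => h2 i (by omega)
  have hinc : ∀ i j, i < j → j < m → σ i < σ j := fun i j hij hj => h1 i j hij (by omega)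
  have hF' := hF.comp hlt (inc_ne hinc)
  have hcm := hF'.cm hG hc hn
  have hHR : HR G m (fun i => x (σ i)) (fun i => y (σ i)) (fun i => v (σ i)) c := by
    refine ⟨hcm, ?_, ?_, ?_, ?_, ?_, ?_, ?_, ?_, ?_, ?_⟩
    · intro i hi j hj e
      exact hF'.hv i hi (e ▸ (hF'.hx j hj).1)
    · intro i hi j hj e
      exact hF'.hv i hi (e ▸ (hF'.hy j hj).1)
    · exact fun i j hij hj => hne _ _ (hinc i j hij hj) (hlt j hj)
    · exact fun i j hij hj => (g i j hij (by omega)).1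
    · exact fun i j hij hj => (g i j hij (by omega)).2.1
    · exact fun i j hij hj => (g i j hij (by omega)).2.2.1
    · exact fun i hi => (g i (i + 1) (by omega) (by omega)).2.2.2.1
    · exact fun i hi => (g i (i + 1) (by omega) (by omega)).2.2.2.2.1
    · exact fun i j hij hj => (g i j hij (by omega)).2.2.2.2.2.1
    · exact fun i j hij hj => (g i j hij (by omega)).2.2.2.2.2.2
  have h6 : HR G 6 (fun i => x (σ i)) (fun i => y (σ i)) (fun i => v (σ i)) c :=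
    ⟨⟨fun i hi j hj => hcm.aa i (by omega) j (by omega), fun i hi j hj => hcm.bb i (by omega) j
      (by omega), fun i hi j hj => hcm.ab i (by omega) j (by omega), fun i hi => hcm.na i (by omega),
      fun i hi => hcm.ne i (by omega)⟩, fun i hi j hj => hHR.vx i (by omega) j (by omega),
      fun i hi j hj => hHR.vy i (by omega) j (by omega), fun i j hij hj => hHR.ne i j hij (by omega),
      fun i j hij hj => hHR.vv i j hij (by omega), fun i j hij hj => hHR.a1 i j hij (by omega),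
      fun i j hij hj => hHR.a2 i j hij (by omega), fun i hi => hHR.d1 i (by omega),
      fun i hi => hHR.d2 i (by omega), fun i j hij hj => hHR.b1 i j hij (by omega),
      fun i j hij hj => hHR.b2 i j hij (by omega)⟩
  refine ⟨σ, hlt, hinc, c, ?_, hHR⟩
  rcases okc_list c c0 (h6.okc hG c0) with h7 | h7 | h7
  · refine (hF'.four hG hc hn (hF'.hv 5 (by omega)) (σ := fun i => i) (fun i hi => by omega)
      (fun i _ j _ hij => hij) fun i hi => ?_).elim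
    exact ⟨(hHR.a1 i 5 (by omega) (by omega)).2 h7.1, (hHR.a2 i 5 (by omega) (by omega)).2 h7.2⟩
  · refine (hF'.four hG hc hn (hF'.hv 0 (by omega)) (σ := fun i => i + 1) (fun i hi => by omega)
      (fun i _ j _ hij => by omega) fun i hi => ?_).elim
    exact ⟨(hHR.b1 0 (i + 1) (by omega) (by omega)).2 h7.1,
      (hHR.b2 0 (i + 1) (by omega) (by omega)).2 h7.2⟩
  · exact h7

end Pool.Agent.MPd439b2.X3
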