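import Pool.Agent.Lib.MP_d439b2_co.X3.H3O.Mod

/-!
# MP_d439b2_co, X3/H3O, St: the structure around a co-matching (helper65, note 2837 (1))
-/

set_option autoImplicit false

namespace Pool.Agent.MPd439b2.X3

open Pool.Agent.MPd439b2 Pool.Agent.MPd439b2.BU

/-- an increasing sequence in a set of numbers -/
theorem pickN (S : Set ℕ) (hS : S.Finite) (m : ℕ) (h : m ≤ S.ncard) :
    ∃ σ : ℕ → ℕ, (∀ i < m, σ i ∈ S) ∧ ∀ i j, i < j → j < m → σ i < σ j := by
  classical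
  have h1 : m ≤ hS.toFinset.card := by
    rwa [Set.ncard_eq_toFinset_card S hS] at h
  obtain ⟨t, ht, hc⟩ := Finset.exists_subset_card_eq h1
  refine ⟨fun i => if h : i < m then t.orderEmbOfFin hc ⟨i, h⟩ else 0, ?_, ?_⟩
  · intro i hi
    simp only [hi, dif_pos]
    exact (hS.mem_toFinset).1 (ht (Finset.orderEmbOfFin_mem t hc ⟨i, hi⟩))
  · intro i j hij hj
    have hi : i < m := by omega
    simp only [hi, hj, dif_pos]
    exact (t.orderEmbOfFin hc).strictMono hij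

/-- at least `m` of the numbers below `n` -/
theorem pickB {n m : ℕ} {P : ℕ → Prop} (h : m ≤ {k | k < n ∧ P k}.ncard) :
    ∃ σ : ℕ → ℕ, (∀ i < m, σ i < n ∧ P (σ i)) ∧ ∀ i j, i < j → j < m → σ i < σ j :=
  pickN _ ((Set.finite_lt_nat n).subset fun _ hk => hk.1) m h

theorem ncard_split (n : ℕ) (P : ℕ → Prop) :
    {k | k < n ∧ P k}.ncard + {k | k < n ∧ ¬ P k}.ncard = n := by
  have h1 : Disjoint {k | k < n ∧ P k} {k | k < n ∧ ¬ P k} :=
    Set.disjoint_left.2 fun k h h' => h'.2 h.2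
  rw [← Set.ncard_union_eq h1 ((Set.finite_lt_nat n).subset fun _ hk => hk.1)
    ((Set.finite_lt_nat n).subset fun _ hk => hk.1)]
  have h2 : {k | k < n ∧ P k} ∪ {k | k < n ∧ ¬ P k} = {k | k < n} := by
    ext k
    simp only [Set.mem_union, Set.mem_ofPred_eq]
    tauto
  rw [h2]
  have h3 : {k | k < n} = ((Finset.range n : Finset ℕ) : Set ℕ) := by
    ext k
    simp
  rw [h3, Set.ncard_coe_finset, Finset.card_range]

theorem fin_lt (n : ℕ) (P : ℕ → Prop) : {k | k < n ∧ P k}.Finite :=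
  (Set.finite_lt_nat n).subset fun _ hk => hk.1

section

variable {V : Type} {G : SimpleGraph V} {n : ℕ} {a b : ℕ → V}

theorem CM.comp (h : CM G n a b) {m : ℕ} {σ : ℕ → ℕ} (h1 : ∀ i < m, σ i < n)
    (h2 : ∀ i j, i < j → j < m → σ i < σ j) : CM G m (fun i => a (σ i)) fun i => b (σ i) := by
  have h3 : ∀ i < m, ∀ j < m, i ≠ j → σ i ≠ σ j := by
    intro i hi j hj hij
    rcases lt_or_gt_of_ne hij with h | h
    · exact (h2 i j h hj).ne
    · exact (h2 j i h hi).ne'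
  exact ⟨fun i hi j hj hij => h.aa _ (h1 i hi) _ (h1 j hj) (h3 i hi j hj hij),
    fun i hi j hj hij => h.bb _ (h1 i hi) _ (h1 j hj) (h3 i hi j hj hij),
    fun i hi j hj hij => h.ab _ (h1 i hi) _ (h1 j hj) (h3 i hi j hj hij),
    fun i hi => h.na _ (h1 i hi), fun i hi => h.ne _ (h1 i hi)⟩

theorem CM.symm (h : CM G n a b) : CM G n b a :=
  ⟨h.bb, h.aa, fun i hi j hj hij => (h.ab j hj i hi (Ne.symm hij)).symm,
    fun i hi h' => h.na i hi h'.symm, fun i hi => (h.ne i hi).symm⟩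

/-- a light vertex misses both ends of a pair if it misses one -/
theorem wl_pair (hG : FrJ G) (h : CM G n a b) {v : V} (hv : v ∈ Wl G n a b) {i : ℕ} (hi : i < n)
    (hn : ¬ Ful G a b v i) : ¬ G.Adj v (a i) ∧ ¬ G.Adj v (b i) := by
  obtain ⟨σ, hσ, hσ'⟩ := pickB hv
  have hc := h.comp (fun i hi => (hσ i hi).1) hσ'
  have hne : ∀ k < 4, i ≠ σ k := fun k hk e => hn (e ▸ (hσ k hk).2)
  constructor
  · intro h1
    have h2 : ¬ G.Adj v (b i) := fun h2 => hn ⟨h1, h2⟩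
    refine J_vert hG hc (s := v) (t := b i) (u := a i) (fun k hk => (hσ k hk).2) ?_ ?_ ?_ ?_ h2 ?_ h1
    · exact fun k hk => ⟨(h.ab _ (hσ k hk).1 i hi (hne k hk).symm).symm,
        h.bb i hi _ (hσ k hk).1 (hne k hk)⟩
    · exact fun k hk => ⟨h.aa i hi _ (hσ k hk).1 (hne k hk), h.ab i hi _ (hσ k hk).1 (hne k hk)⟩
    · rintro rfl
      exact h.na i hi h1.symm
    · exact (h.ne i hi).symm
    · exact fun h' => h.na i hi h'.symm
  · intro h1
    have h2 : ¬ G.Adj v (a i) := fun h2 => hn ⟨h2, h1⟩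
    refine J_vert hG hc (s := v) (t := a i) (u := b i) (fun k hk => (hσ k hk).2) ?_ ?_ ?_ ?_ h2 ?_ h1
    · exact fun k hk => ⟨h.aa i hi _ (hσ k hk).1 (hne k hk), h.ab i hi _ (hσ k hk).1 (hne k hk)⟩
    · exact fun k hk => ⟨(h.ab _ (hσ k hk).1 i hi (hne k hk).symm).symm,
        h.bb i hi _ (hσ k hk).1 (hne k hk)⟩
    · rintro rfl
      exact h.na i hi h1
    · exact h.ne i hi
    · exact h.na i hi

/-- a light vertex misses at most one pair -/
theorem wl_one (hG : FrJ G) (h : CM G n a b) {v : V} (hv : v ∈ Wl G n a b) {i j : ℕ} (hi : i < n)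
    (hj : j < n) (hni : ¬ Ful G a b v i) (hnj : ¬ Ful G a b v j) : i = j := by
  by_contra hij
  obtain ⟨σ, hσ, hσ'⟩ := pickB hv
  have hc := h.comp (fun i hi => (hσ i hi).1) hσ'
  have h1 := (wl_pair hG h hv hi hni).1
  have h2 := (wl_pair hG h hv hj hnj).1
  refine J_vert hG hc (s := a i) (t := v) (u := a j) ?_ (fun k hk => (hσ k hk).2) ?_ ?_ ?_
    (fun h' => h1 h'.symm) h2 (h.aa i hi j hj hij)
  · intro k hk
    have hne : i ≠ σ k := fun e => hni (e ▸ (hσ k hk).2)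
    exact ⟨h.aa i hi _ (hσ k hk).1 hne, h.ab i hi _ (hσ k hk).1 hne⟩
  · intro k hk
    have hne : j ≠ σ k := fun e => hnj (e ▸ (hσ k hk).2)
    exact ⟨h.aa j hj _ (hσ k hk).1 hne, h.ab j hj _ (hσ k hk).1 hne⟩
  · rintro rfl
    exact h2 (h.aa i hi j hj hij)
  · rintro rfl
    exact h1 (h.aa j hj i hi (Ne.symm hij))

/-- the indices which are not full for a light vertex -/
theorem wl_ncard (hG : FrJ G) (h : CM G n a b) {v : V} (hv : v ∈ Wl G n a b) :
    {k | k < n ∧ ¬ Ful G a b v k}.ncard ≤ 1 := by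
  rw [Set.ncard_le_one (fin_lt n _)]
  exact fun i hi j hj => wl_one hG h hv hi.1 hj.1 hi.2 hj.2

/-- non-adjacency is transitive on the light vertices -/
theorem wl_trans (hG : FrJ G) (h : CM G n a b) (hn : 7 ≤ n) {x y z : V} (hx : x ∈ Wl G n a b)
    (hy : y ∈ Wl G n a b) (hz : z ∈ Wl G n a b) (hxy : ¬ G.Adj x y) (hyz : ¬ G.Adj y z) :
    ¬ G.Adj x z := by
  intro hxz
  have nxy : x ≠ y := by
    rintro rfl
    exact hyz hxz
  have nyz : y ≠ z := by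
    rintro rfl
    exact hxy hxz
  have h1 : {k | k < n ∧ ¬ (Ful G a b x k ∧ Ful G a b y k ∧ Ful G a b z k)}.ncard ≤ 3 := by
    have hsub : {k | k < n ∧ ¬ (Ful G a b x k ∧ Ful G a b y k ∧ Ful G a b z k)} ⊆
        {k | k < n ∧ ¬ Ful G a b x k} ∪ ({k | k < n ∧ ¬ Ful G a b y k} ∪
          {k | k < n ∧ ¬ Ful G a b z k}) := by
      rintro k ⟨hk, hk'⟩
      simp only [Set.mem_union, Set.mem_ofPred_eq]
      tauto
    have h2 := Set.ncard_le_ncard hsub
      ((fin_lt n _).union ((fin_lt n _).union (fin_lt n _)))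
    have h3 := Set.ncard_union_le {k | k < n ∧ ¬ Ful G a b x k} ({k | k < n ∧ ¬ Ful G a b y k} ∪
          {k | k < n ∧ ¬ Ful G a b z k})
    have h4 := Set.ncard_union_le {k | k < n ∧ ¬ Ful G a b y k} {k | k < n ∧ ¬ Ful G a b z k}
    have h5 := wl_ncard hG h hx
    have h6 := wl_ncard hG h hy
    have h7 := wl_ncard hG h hz
    omega
  have h2 := ncard_split n fun k => Ful G a b x k ∧ Ful G a b y k ∧ Ful G a b z k
  obtain ⟨σ, hσ, hσ'⟩ := pickB (n := n) (m := 4)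
    (P := fun k => Ful G a b x k ∧ Ful G a b y k ∧ Ful G a b z k) (by omega)
  exact J_vert hG (h.comp (fun i hi => (hσ i hi).1) hσ') (fun k hk => (hσ k hk).2.1)
    (fun k hk => (hσ k hk).2.2.1) (fun k hk => (hσ k hk).2.2.2) nxy nyz hxy hyz hxz

theorem a_wl (h : CM G n a b) (hn : 5 ≤ n) {k : ℕ} (hk : k < n) : a k ∈ Wl G n a b := by
  show 4 ≤ _
  have h1 := ncard_split n fun j => Ful G a b (a k) j
  have h2 : {j | j < n ∧ ¬ Ful G a b (a k) j} ⊆ {k} := by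
    rintro j ⟨hj, hj'⟩
    by_contra hne
    exact hj' ⟨h.aa k hk j hj (fun e => hne e.symm), h.ab k hk j hj (fun e => hne e.symm)⟩
  have h3 := Set.ncard_le_ncard h2
  rw [Set.ncard_singleton] at h3
  omega

theorem b_wl (h : CM G n a b) (hn : 5 ≤ n) {k : ℕ} (hk : k < n) : b k ∈ Wl G n a b := by
  show 4 ≤ _
  have h1 := ncard_split n fun j => Ful G a b (b k) j
  have h2 : {j | j < n ∧ ¬ Ful G a b (b k) j} ⊆ {k} := by
    rintro j ⟨hj, hj'⟩
    by_contra hne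
    exact hj' ⟨(h.ab j hj k hk hne).symm, h.bb k hk j hj (fun e => hne e.symm)⟩
  have h3 := Set.ncard_le_ncard h2
  rw [Set.ncard_singleton] at h3
  omega

theorem a_lc (h : CM G n a b) (hn : 5 ≤ n) {k : ℕ} (hk : k < n) : a k ∈ Lc G n a b k :=
  ⟨a_wl h hn hk, G.irrefl⟩

theorem b_lc (h : CM G n a b) (hn : 5 ≤ n) {k : ℕ} (hk : k < n) : b k ∈ Lc G n a b k :=
  ⟨b_wl h hn hk, fun h' => h.na k hk h'.symm⟩

/-- inside a class -/
theorem lc_same (hG : FrJ G) (h : CM G n a b) (hn : 7 ≤ n) {k : ℕ} (hk : k < n) {x y : V}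
    (hx : x ∈ Lc G n a b k) (hy : y ∈ Lc G n a b k) : ¬ G.Adj x y :=
  wl_trans hG h hn hx.1 (a_wl h (by omega) hk) hy.1 hx.2 (fun h' => hy.2 h'.symm)

/-- light vertices outside a class are complete to it -/
theorem lc_out (hG : FrJ G) (h : CM G n a b) (hn : 7 ≤ n) {k : ℕ} (hk : k < n) {x y : V}
    (hx : x ∈ Lc G n a b k) (hy : y ∈ Wl G n a b) (hy' : y ∉ Lc G n a b k) : G.Adj y x := by
  by_contra h1
  exact hy' ⟨hy, wl_trans hG h hn hy hx.1 (a_wl h (by omega) hk) h1 hx.2⟩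

/-- different classes are complete to each other -/
theorem lc_diff (hG : FrJ G) (h : CM G n a b) (hn : 7 ≤ n) {k l : ℕ} (hk : k < n) (hl : l < n)
    (hkl : k ≠ l) {x y : V} (hx : x ∈ Lc G n a b k) (hy : y ∈ Lc G n a b l) : G.Adj x y := by
  have h1 : a k ∉ Lc G n a b l := fun h' => h'.2 (h.aa k hk l hl hkl)
  have h2 : y ∉ Lc G n a b k := fun h' => h1 ⟨a_wl h (by omega) hk,
    wl_trans hG h hn (a_wl h (by omega) hk) hy.1 (a_wl h (by omega) hl)
      (fun h3 => h'.2 h3.symm) hy.2⟩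
  exact (lc_out hG h hn hk hx hy.1 h2).symm

theorem lc_dis (hG : FrJ G) (h : CM G n a b) (hn : 7 ≤ n) {k l : ℕ} (hk : k < n) (hl : l < n)
    (hkl : k ≠ l) {x : V} (hx : x ∈ Lc G n a b k) : x ∉ Lc G n a b l :=
  fun hy => G.irrefl (lc_diff hG h hn hk hl hkl hx hy)

/-- a big vertex is adjacent to two vertices of a class at most three times -/
theorem big3 (hG : FrJ G) (h : CM G n a b) (hn : 9 ≤ n) {v : V} (hv : v ∉ Wl G n a b) :
    {k | k < n ∧ ∃ x y, x ∈ Lc G n a b k ∧ y ∈ Lc G n a b k ∧ x ≠ y ∧ G.Adj v x ∧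
      G.Adj v y}.ncard ≤ 3 := by
  by_contra hcon
  obtain ⟨σ, hσ, hσ'⟩ := pickB (m := 4) (n := n) (P := fun k => ∃ x y, x ∈ Lc G n a b k ∧
    y ∈ Lc G n a b k ∧ x ≠ y ∧ G.Adj v x ∧ G.Adj v y) (by omega)
  have h0 : ∀ i, ∃ x y, i < 4 → x ∈ Lc G n a b (σ i) ∧ y ∈ Lc G n a b (σ i) ∧ x ≠ y ∧
      G.Adj v x ∧ G.Adj v y := by
    intro i
    by_cases hi : i < 4
    · obtain ⟨x, y, h⟩ := (hσ i hi).2
      exact ⟨x, y, fun _ => h⟩
    · exact ⟨v, v, fun h => absurd h hi⟩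
  choose x y hxy using h0
  have hinj : ∀ i < 4, ∀ j < 4, i ≠ j → σ i ≠ σ j := by
    intro i hi j hj hij
    rcases lt_or_gt_of_ne hij with h | h
    · exact (hσ' i j h hj).ne
    · exact (hσ' j i h hi).ne'
  have hc : CM G 4 x y := ⟨
    fun i hi j hj hij => lc_diff hG h (by omega) (hσ i hi).1 (hσ j hj).1 (hinj i hi j hj hij)
      (hxy i hi).1 (hxy j hj).1,
    fun i hi j hj hij => lc_diff hG h (by omega) (hσ i hi).1 (hσ j hj).1 (hinj i hi j hj hij)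
      (hxy i hi).2.1 (hxy j hj).2.1,
    fun i hi j hj hij => lc_diff hG h (by omega) (hσ i hi).1 (hσ j hj).1 (hinj i hi j hj hij)
      (hxy i hi).1 (hxy j hj).2.1,
    fun i hi => lc_same hG h (by omega) (hσ i hi).1 (hxy i hi).1 (hxy i hi).2.1,
    fun i hi => (hxy i hi).2.2.1⟩
  -- two other indices which are not full
  have h1 : ¬ 4 ≤ {k | k < n ∧ Ful G a b v k}.ncard := hv
  have h2 := ncard_split n fun k => Ful G a b v k
  have h3 : {k | k < n ∧ ¬ Ful G a b v k} ⊆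
      {k | k < n ∧ (¬ Ful G a b v k ∧ ∀ i < 4, k ≠ σ i)} ∪ σ '' {i | i < 4} := by
    rintro k ⟨hk, hk'⟩
    by_cases h4 : ∀ i < 4, k ≠ σ i
    · exact Or.inl ⟨hk, hk', h4⟩
    · push Not at h4
      obtain ⟨i, hi, rfl⟩ := h4
      exact Or.inr ⟨i, hi, rfl⟩
  have h4 := Set.ncard_le_ncard h3 ((fin_lt n _).union ((Set.finite_lt_nat 4).image σ))
  have h5 := Set.ncard_union_le {k | k < n ∧ (¬ Ful G a b v k ∧ ∀ i < 4, k ≠ σ i)}
    (σ '' {i | i < 4})
  have h6 : (σ '' {i | i < 4}).ncard ≤ 4 := by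
    refine (Set.ncard_image_le (Set.finite_lt_nat 4)).trans ?_
    have h7 : {i | i < 4} = ((Finset.range 4 : Finset ℕ) : Set ℕ) := by
      ext k
      simp
    rw [h7, Set.ncard_coe_finset, Finset.card_range]
  obtain ⟨τ, hτ, hτ'⟩ := pickB (n := n) (m := 2)
    (P := fun k => ¬ Ful G a b v k ∧ ∀ i < 4, k ≠ σ i) (by omega)
  have h7 : ∀ k < n, ¬ Ful G a b v k → ∃ s ∈ Lc G n a b k, ¬ G.Adj v s := by
    intro k hk hk'
    by_cases h8 : G.Adj v (a k)
    · exact ⟨b k, b_lc h (by omega) hk, fun h9 => hk' ⟨h8, h9⟩⟩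
    · exact ⟨a k, a_lc h (by omega) hk, h8⟩
  obtain ⟨s, hs, hvs⟩ := h7 _ (hτ 0 (by omega)).1 (hτ 0 (by omega)).2.1
  obtain ⟨u, hu, hvu⟩ := h7 _ (hτ 1 (by omega)).1 (hτ 1 (by omega)).2.1
  refine J_vert hG hc (s := s) (t := v) (u := u) ?_ (fun i hi => (hxy i hi).2.2.2) ?_ ?_ ?_
    (fun h' => hvs h'.symm) hvu ?_
  · exact fun i hi => ⟨lc_diff hG h (by omega) (hτ 0 (by omega)).1 (hσ i hi).1
      ((hτ 0 (by omega)).2.2 i hi) hs (hxy i hi).1, lc_diff hG h (by omega) (hτ 0 (by omega)).1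
      (hσ i hi).1 ((hτ 0 (by omega)).2.2 i hi) hs (hxy i hi).2.1⟩
  · exact fun i hi => ⟨lc_diff hG h (by omega) (hτ 1 (by omega)).1 (hσ i hi).1
      ((hτ 1 (by omega)).2.2 i hi) hu (hxy i hi).1, lc_diff hG h (by omega) (hτ 1 (by omega)).1
      (hσ i hi).1 ((hτ 1 (by omega)).2.2 i hi) hu (hxy i hi).2.1⟩
  · rintro rfl
    exact hv hs.1
  · rintro rfl
    exact hv hu.1
  · exact lc_diff hG h (by omega) (hτ 0 (by omega)).1 (hτ 1 (by omega)).1
      (hτ' 0 1 (by omega) (by omega)).ne hs hu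

end

end Pool.Agent.MPd439b2.X3
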