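import Pool.Agent.Lib.MP_d439b2_co.X3.H3O.Defs

/-!
# MP_d439b2_co, X3/H3O, Tab: the table of one more rail (helper65)

The rails are `x i`, `y i`, `v i` with `i < 6`; `x`, `y` is a co-matching.  The bits of the code `c`: bit `0`: the
`v`'s are pairwise adjacent; bits `1, 2`: `v j ~ x i`, `v j ~ y i` for `i < j`; bits `3, 4`: for `i = j`; bits
`5, 6`: for `i > j`.
-/

set_option autoImplicit false

namespace Pool.Agent.MPd439b2.X3

open Pool.Agent.MPd439b2 Pool.Agent.MPd439b2.BU

/-- the relation of the code `c` on the eighteen vertices `x i = i`, `y i = 6 + i`, `v i = 12 + i` (for `j < i`) -/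
def rr (c i j : ℕ) : Bool :=
  bif Nat.blt i 6 then true
  else bif Nat.blt i 12 then (bif Nat.blt j 6 then !Nat.beq i (j + 6) else true)
  else bif Nat.blt j 6 then
    (bif Nat.blt (j + 12) i then c.testBit 1 else bif Nat.beq (j + 12) i then c.testBit 3
      else c.testBit 5)
  else bif Nat.blt j 12 then
    (bif Nat.blt (j + 6) i then c.testBit 2 else bif Nat.beq (j + 6) i then c.testBit 4
      else c.testBit 6)
  else c.testBit 0

/-- the certificate `L` gives a model of `K3:0,01,12` or of `J` in the pattern `r` with `n` vertices -/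
def killJ (n : ℕ) (r : ℕ → ℕ → Bool) (L : List (List ℕ)) : Bool :=
  HC.chkG n 6 r HC.r3 L || HC.chkG n 11 r rJ L

theorem killJ_false {V : Type} {G : SimpleGraph V} {n : ℕ} {S : ℕ → Set V} {r : ℕ → ℕ → Bool}
    {L : List (List ℕ)} (hG : FrJ G) (hS : SP G Set.univ n S r) (hc : killJ n r L = true) : False := by
  rw [killJ, Bool.or_eq_true] at hc
  rcases hc with hc | hc
  · exact hG.r3 _ (HC.chkG_sp hS hc)
  · exact hG.j _ (HC.chkG_sp hS hc)

/-- the certificates -/
def tb : List (List (List ℕ)) :=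
  [[],
    [],
    [[0],[1],[2],[13],[14],[6]],
    [[0],[14],[13],[7],[1],[12]],
    [[6],[7],[2],[13],[14],[0]],
    [[6],[14],[13],[1],[7],[12]],
    [],
    [],
    [],
    [[1,0],[14,12],[13],[8],[2],[15]],
    [[0],[1],[2],[12],[13],[6]],
    [[1],[14],[13],[8],[2],[12]],
    [[0],[2],[7],[12],[1],[14]],
    [[6],[14],[13],[8],[2],[12]],
    [],
    [],
    [],
    [[7,6],[14,12],[13],[2],[8],[15]],
    [[0],[1],[2],[13],[14],[6]],
    [[0],[14],[13],[2],[8],[12]],
    [[6],[7],[2],[12],[13],[0]],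
    [[7],[14],[13],[2],[8],[12]],
    [],
    [],
    [[1,0],[6,2],[8],[13],[12],[14]],
    [[0],[6],[1],[7],[2],[8],[3],[9],[4],[15,14,13,12],[5]],
    [[6],[2],[1],[12],[7],[14]],
    [[1],[15],[13],[8],[2],[12]],
    [[0],[2],[7],[12],[1],[14]],
    [[7],[15],[13],[2],[8],[12]],
    [],
    [],
    [[2],[1],[0],[13],[12],[8]],
    [[2],[12],[13],[7],[1],[14]],
    [[0],[1],[8],[13],[14],[6]],
    [],
    [[2],[1],[0],[13],[12],[8]],
    [[1],[7],[2],[8],[3],[9],[4],[10],[0],[17,12],[11]],
    [],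
    [],
    [[1],[0],[8],[13],[12],[7]],
    [[1],[12],[13],[6],[0],[14]],
    [],
    [],
    [[1],[0],[8],[13],[12],[7]],
    [[0],[6],[1],[7],[2],[8],[3],[9],[4],[10],[16,12]],
    [],
    [],
    [[2],[1],[0],[13],[12],[8]],
    [[2],[12],[13],[0],[6],[14]],
    [[7,0],[1],[6],[13],[14],[12]],
    [[0],[6],[1],[7],[2],[14,8],[3],[15,9],[4],[10],[13,12]],
    [[2],[1],[0],[13],[12],[8]],
    [[1],[7],[2],[8],[3],[9],[4],[10],[6],[0],[16,12]],
    [],
    [],
    [[8],[0],[1],[14],[7],[12]],
    [[2],[12],[14],[7],[1],[15]],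
    [[0],[7],[8],[15],[13],[6]],
    [[0],[6],[1],[7],[2],[8],[3],[9],[4],[10],[15,14,13,12]],
    [[2],[7],[14],[12],[13],[8]],
    [[0],[6],[1],[7],[2],[8],[3],[9],[4],[10],[15,12]],
    [],
    [],
    [[8],[7],[0],[13],[12],[2]],
    [[8],[12],[13],[1],[7],[14]],
    [[0],[1],[2],[13],[14],[6]],
    [[0],[12],[8],[15,2],[9],[16,3],[10],[17,4],[13],[7],[14,1]],
    [[6],[7],[2],[13],[14],[0]],
    [],
    [],
    [],
    [[2],[0],[7],[14],[1],[12]],
    [[8],[12],[13],[6],[0],[14]],
    [[0],[1],[2],[12],[13],[6]],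
    [[1],[7],[2],[8],[3],[9],[4],[10],[0],[6],[16,12]],
    [[1,0],[6],[2],[12],[13],[14]],
    [[0],[6],[1],[7],[8],[14,2],[9],[15,3],[10],[4],[13,12]],
    [],
    [],
    [[7],[6],[2],[13],[12],[1]],
    [[7],[12],[13],[0],[6],[14]],
    [[0],[1],[2],[13],[14],[6]],
    [[0],[6],[1],[7],[2],[8],[3],[9],[10],[4],[16,12]],
    [],
    [],
    [],
    [],
    [[2],[0],[7],[14],[1],[12]],
    [[8],[12],[14],[1],[7],[15]],
    [[0],[7],[12],[14],[13],[6]],
    [[0],[6],[1],[7],[2],[8],[3],[9],[10],[4],[15,12]],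
    [[6],[1],[2],[15],[13],[0]],
    [[0],[6],[1],[7],[2],[8],[3],[9],[10],[4],[15,14,13,12]],
    [],
    [],
    [],
    [],
    [],
    [],
    [],
    [],
    [],
    [],
    [],
    [],
    [],
    [],
    [],
    [],
    [],
    [],
    [],
    [],
    [],
    [],
    [],
    [],
    [],
    [],
    [],
    [],
    [],
    [],
    [],
    [],
    [],
    []]

/-- the codes without certificate: one side is adjacent to both `x` and `y`, or one of ten codes -/
def okc (c : ℕ) : Bool :=
  (c.testBit 1 && c.testBit 2) || (c.testBit 5 && c.testBit 6) ||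
    [0, 1, 8, 16, 84, 85, 42, 43, 69, 35].elem c

theorem tab_ok : ((List.range 128).all fun c => okc c || killJ 18 (rr c) (tb.getD c [])) = true := by
  decide +kernel

/-- a pattern of vertices -/
theorem sp_single {V : Type} {G : SimpleGraph V} {n : ℕ} {f : ℕ → V} {r : ℕ → ℕ → Bool}
    (h1 : ∀ i < n, ∀ j < i, f i ≠ f j) (h2 : ∀ i < n, ∀ j < i, (G.Adj (f i) (f j) ↔ r i j = true)) :
    SP G Set.univ n (fun i => {f i}) r :=
  ⟨fun _ _ => Set.subset_univ _, fun _ _ => Conn.singleton G _,
    fun i hi j hj => Set.disjoint_singleton.2 (h1 i hi j hj),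
    fun i hi j hj => tch_single.trans (h2 i hi j hj)⟩

/-- homogeneous rails `x i`, `y i`, `v i` (`i < m`) with the code `c` -/
structure HR {V : Type} (G : SimpleGraph V) (m : ℕ) (x y v : ℕ → V) (c : ℕ) : Prop where
  cm : CM G m x y
  vx : ∀ i < m, ∀ j < m, v i ≠ x j
  vy : ∀ i < m, ∀ j < m, v i ≠ y j
  ne : ∀ i j, i < j → j < m → v j ≠ v i
  vv : ∀ i j, i < j → j < m → (G.Adj (v j) (v i) ↔ c.testBit 0 = true)
  a1 : ∀ i j, i < j → j < m → (G.Adj (v j) (x i) ↔ c.testBit 1 = true)
  a2 : ∀ i j, i < j → j < m → (G.Adj (v j) (y i) ↔ c.testBit 2 = true)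
  d1 : ∀ i < m, (G.Adj (v i) (x i) ↔ c.testBit 3 = true)
  d2 : ∀ i < m, (G.Adj (v i) (y i) ↔ c.testBit 4 = true)
  b1 : ∀ i j, i < j → j < m → (G.Adj (v i) (x j) ↔ c.testBit 5 = true)
  b2 : ∀ i j, i < j → j < m → (G.Adj (v i) (y j) ↔ c.testBit 6 = true)
  
/-- the eighteen vertices -/
def f18 {V : Type} (x y v : ℕ → V) (i : ℕ) : V := if i < 6 then x i else if i < 12 then y (i - 6) else v (i - 12)

theorem blt_t {a b : ℕ} (h : a < b) : Nat.blt a b = true := by simpa using h

theorem blt_f {a b : ℕ} (h : ¬ a < b) : Nat.blt a b = false := by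
  rw [Bool.eq_false_iff]
  simpa using h

theorem beq_t {a b : ℕ} (h : a = b) : Nat.beq a b = true := by simpa using h

theorem beq_f {a b : ℕ} (h : ¬ a = b) : Nat.beq a b = false := by
  rw [Bool.eq_false_iff]
  simpa using h

theorem HR.sp {V : Type} {G : SimpleGraph V} {x y v : ℕ → V} {c : ℕ} (h : HR G 6 x y v c) :
    SP G Set.univ 18 (fun i => {f18 x y v i}) (rr c) := by
  have hxy : ∀ i < 6, ∀ j < 6, x i ≠ y j := by
    intro i hi j hj
    by_cases hij : i = j
    · subst hij
      exact h.cm.ne i hi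
    · exact (h.cm.ab i hi j hj hij).ne
  have e1 : ∀ i, i < 6 → f18 x y v i = x i := fun i hi => if_pos hi
  have e2 : ∀ i, ¬ i < 6 → i < 12 → f18 x y v i = y (i - 6) := fun i hi hi' => by
    rw [f18, if_neg hi, if_pos hi']
  have e3 : ∀ i, ¬ i < 12 → f18 x y v i = v (i - 12) := fun i hi => by
    rw [f18, if_neg (by omega), if_neg hi]
  refine sp_single ?_ ?_
  · intro i hi j hj
    by_cases h1 : i < 6
    · rw [e1 i h1, e1 j (by omega)]
      exact (h.cm.aa i h1 j (by omega) (by omega)).ne
    · by_cases h2 : i < 12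
      · rw [e2 i h1 h2]
        by_cases h3 : j < 6
        · rw [e1 j h3]
          exact (hxy j h3 (i - 6) (by omega)).symm
        · rw [e2 j h3 (by omega)]
          exact (h.cm.bb _ (by omega) _ (by omega) (by omega)).ne
      · rw [e3 i h2]
        by_cases h3 : j < 6
        · rw [e1 j h3]
          exact h.vx _ (by omega) _ h3
        · by_cases h4 : j < 12
          · rw [e2 j h3 h4]
            exact h.vy _ (by omega) _ (by omega)
          · rw [e3 j h4]
            exact h.ne _ _ (by omega) (by omega)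
  · intro i hi j hj
    by_cases h1 : i < 6
    · rw [e1 i h1, e1 j (by omega), rr, blt_t h1]
      exact iff_of_true (h.cm.aa i h1 j (by omega) (by omega)) rfl
    · by_cases h2 : i < 12
      · rw [e2 i h1 h2, rr, blt_f h1, blt_t h2]
        by_cases h3 : j < 6
        · rw [e1 j h3, blt_t h3]
          by_cases h4 : i = j + 6
          · rw [beq_t h4]
            have h5 : i - 6 = j := by omega
            rw [h5]
            exact iff_of_false (fun h' => h.cm.na j h3 h'.symm) (by simp)
          · rw [beq_f h4]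
            exact iff_of_true (h.cm.ab j h3 _ (by omega) (by omega)).symm rfl
        · rw [e2 j h3 (by omega), blt_f h3]
          exact iff_of_true (h.cm.bb _ (by omega) _ (by omega) (by omega)) rfl
      · rw [e3 i h2, rr, blt_f h1, blt_f h2]
        by_cases h3 : j < 6
        · rw [e1 j h3, blt_t h3]
          by_cases h4 : j + 12 < i
          · rw [blt_t h4]
            exact h.a1 _ _ (by omega) (by omega)
          · rw [blt_f h4]
            by_cases h5 : j + 12 = i
            · rw [beq_t h5, show i - 12 = j by omega]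
              exact h.d1 _ h3
            · rw [beq_f h5]
              exact h.b1 _ _ (by omega) (by omega)
        · by_cases h4 : j < 12
          · rw [e2 j h3 h4, blt_f h3, blt_t h4]
            by_cases h5 : j + 6 < i
            · rw [blt_t h5]
              exact h.a2 _ _ (by omega) (by omega)
            · rw [blt_f h5]
              by_cases h6 : j + 6 = i
              · rw [beq_t h6, show i - 12 = j - 6 by omega]
                exact h.d2 _ (by omega)
              · rw [beq_f h6]
                exact h.b2 _ _ (by omega) (by omega)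
          · rw [e3 j h4, blt_f h3, blt_f h4]
            exact h.vv _ _ (by omega) (by omega)

/-- **the table** -/
theorem HR.okc {V : Type} {G : SimpleGraph V} {x y v : ℕ → V} {c : ℕ} (hG : FrJ G)
    (h : HR G 6 x y v c) (hc : c < 128) : okc c = true := by
  have h1 := tab_ok
  rw [List.all_eq_true] at h1
  have h2 := h1 c (List.mem_range.2 hc)
  rw [Bool.or_eq_true] at h2
  rcases h2 with h2 | h2
  · exact h2
  · exact (killJ_false hG h.sp h2).elim

end Pool.Agent.MPd439b2.X3
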