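import Pool.Agent.Lib.MP_d439b2_co.X3.H3O.Rail

/-!
# MP_d439b2_co, X3/H3O, Use: how the rail lemma is used (helper65, note 2837 (2), (4))
-/

set_option autoImplicit false

namespace Pool.Agent.MPd439b2.X3

open Pool.Agent.MPd439b2 Pool.Agent.MPd439b2.BU

/-- all vertices `v i` are equal or all are different -/
theorem eqRam (m : ℕ) : ∃ N : ℕ, ∀ (V : Type) (v : ℕ → V), ∃ σ : ℕ → ℕ, (∀ i < m, σ i < N) ∧
    (∀ i j, i < j → j < m → σ i < σ j) ∧ ((∀ i < m, v (σ i) = v (σ 0)) ∨
      ∀ i j, i < j → j < m → v (σ j) ≠ v (σ i)) := by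
  classical
  obtain ⟨N, hN⟩ := W.ramC Bool (m + 1)
  refine ⟨N, fun V v => ?_⟩
  obtain ⟨σ, c, h1, h2, h3⟩ := hN fun i j => decide (v j = v i)
  refine ⟨σ, fun i hi => h2 i (by omega), fun i j hij hj => h1 i j hij (by omega), ?_⟩
  cases c with
  | true =>
    refine Or.inl fun i hi => ?_
    rcases Nat.eq_zero_or_pos i with rfl | h0
    · rfl
    · simpa using h3 0 i h0 (by omega)
  | false =>
    exact Or.inr fun i j hij hj => by simpa using h3 i j hij (by omega)

/-- **U2.** No large family with `v i` adjacent to `x i` and `y i`. -/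
theorem useB : ∃ N : ℕ, ∀ (V : Type) (G : SimpleGraph V) (n : ℕ)
    (a b : ℕ → V) (κ : ℕ → ℕ) (x y v : ℕ → V), FrJ G → CM G n a b → 9 ≤ n →
    Fm G n a b N κ x y v → ¬ ∀ i < N, G.Adj (v i) (x i) ∧ G.Adj (v i) (y i) := by
  obtain ⟨N₁, hN₁⟩ := rail 6 le_rfl
  obtain ⟨N, hN⟩ := eqRam (N₁ + 6)
  refine ⟨N, fun V G n a b κ x y v hG hc hn hF hd => ?_⟩
  obtain ⟨σ, h1, h2, h3⟩ := hN V v
  rcases h3 with h3 | h3
  · exact hF.four hG hc hn (hF.hv _ (h1 0 (by omega))) (σ := σ) (fun i hi => h1 i (by omega))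
      (fun i hi j hj => inc_ne h2 i (by omega) j (by omega))
      fun i hi => (h3 i (by omega)) ▸ hd _ (h1 i (by omega))
  · have hF' := hF.comp (m := N₁) (fun i hi => h1 i (by omega))
      (fun i hi j hj => inc_ne h2 i (by omega) j (by omega))
    obtain ⟨τ, t1, t2, c, hc', hR⟩ := hN₁ V G n a b _ _ _ _ hG hc hn hF'
      fun i j hij hj => h3 i j hij (by omega)
    have h4 := hd _ (h1 _ (lt_of_lt_of_le (t1 0 (by omega)) (by omega)))
    have h5 := (hR.d1 0 (by omega)).1 h4.1
    have h6 := (hR.d2 0 (by omega)).1 h4.2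
    have h7 : ∀ c ∈ [0, 1, 8, 16, 84, 85, 42, 43, 69, 35], c.testBit 3 = true →
        c.testBit 4 = true → False := by decide +kernel
    exact h7 c hc' h5 h6

/-- **U1.** If `v i` is adjacent to `y i` and not to `x i` then one big vertex is adjacent to many `y i` and
to none of the `x i`. -/
theorem useA (m₀ m : ℕ) : ∃ N : ℕ, ∀ (V : Type) (G : SimpleGraph V) (n : ℕ)
    (a b : ℕ → V) (κ : ℕ → ℕ) (x y v : ℕ → V), FrJ G → (∀ x v, ¬ Thin G m₀ x v) → CM G n a b →
    9 ≤ n → Fm G n a b N κ x y v → (∀ i < N, ¬ G.Adj (v i) (x i) ∧ G.Adj (v i) (y i)) →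
    ∃ w, w ∉ Wl G n a b ∧ ∃ σ : ℕ → ℕ, (∀ i < m, σ i < N) ∧ (∀ i j, i < j → j < m → σ i < σ j) ∧
      ∀ i < m, ¬ G.Adj w (x (σ i)) ∧ G.Adj w (y (σ i)) := by
  obtain ⟨N₁, hN₁⟩ := rail (m₀ + m + 6) (by omega)
  obtain ⟨N, hN⟩ := eqRam (N₁ + m + 1)
  refine ⟨N, fun V G n a b κ x y v hG hT hc hn hF hd => ?_⟩
  obtain ⟨σ, h1, h2, h3⟩ := hN V v
  rcases h3 with h3 | h3
  · exact ⟨v (σ 0), hF.hv _ (h1 0 (by omega)), σ, fun i hi => h1 i (by omega),
      fun i j hij hj => h2 i j hij (by omega),
      fun i hi => (h3 i (by omega)) ▸ hd _ (h1 i (by omega))⟩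
  · have hF' := hF.comp (m := N₁) (fun i hi => h1 i (by omega))
      (fun i hi j hj => inc_ne h2 i (by omega) j (by omega))
    obtain ⟨τ, t1, t2, c, hc', hR⟩ := hN₁ V G n a b _ _ _ _ hG hc hn hF'
      fun i j hij hj => h3 i j hij (by omega)
    have h4 : ∀ i < m₀ + m + 6, ¬ G.Adj (v (σ (τ i))) (x (σ (τ i))) ∧
        G.Adj (v (σ (τ i))) (y (σ (τ i))) := fun i hi =>
      hd _ (h1 _ (lt_of_lt_of_le (t1 i hi) (by omega)))
    have h5 : ¬ c.testBit 3 = true := fun h => (h4 0 (by omega)).1 ((hR.d1 0 (by omega)).2 h)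
    have h6 := (hR.d2 0 (by omega)).1 (h4 0 (by omega)).2
    have h7 : ∀ c ∈ [0, 1, 8, 16, 84, 85, 42, 43, 69, 35], ¬ c.testBit 3 = true →
        c.testBit 4 = true → (c.testBit 0 = false ∧ c.testBit 2 = false ∧ c.testBit 6 = false) ∨
          (c.testBit 5 = false ∧ c.testBit 6 = true) := by decide +kernel
    rcases h7 c hc' h5 h6 with h8 | h8
    · -- a thin spider
      refine (hT (fun i => y (σ (τ i))) (fun i => v (σ (τ i))) ⟨?_, ?_, ?_⟩).elim
      · exact fun i hi j hj => hR.cm.bb i (by omega) j (by omega)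
      · intro i hi j hj h9
        rcases lt_trichotomy i j with hij | hij | hij
        · have := (hR.vv i j hij (by omega)).1 h9.symm
          rw [h8.1] at this
          exact Bool.noConfusion this
        · subst hij
          exact G.irrefl h9
        · have := (hR.vv j i hij (by omega)).1 h9
          rw [h8.1] at this
          exact Bool.noConfusion this
      · intro i hi j hj
        constructor
        · intro h9
          by_contra hij
          rcases lt_or_gt_of_ne hij with hij | hij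
          · have := (hR.a2 i j hij (by omega)).1 h9.symm
            rw [h8.2.1] at this
            exact Bool.noConfusion this
          · have := (hR.b2 j i hij (by omega)).1 h9.symm
            rw [h8.2.2] at this
            exact Bool.noConfusion this
        · rintro rfl
          exact (h4 i (by omega)).2.symm
    · refine ⟨v (σ (τ 0)), hF'.hv _ (t1 0 (by omega)), fun i => σ (τ i),
        fun i hi => h1 _ (lt_of_lt_of_le (t1 i (by omega)) (by omega)), ?_, ?_⟩
      · intro i j hij hj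
        exact h2 _ _ (t2 i j hij (by omega)) (lt_of_lt_of_le (t1 j (by omega)) (by omega))
      · intro i hi
        rcases Nat.eq_zero_or_pos i with rfl | h0
        · exact h4 0 (by omega)
        · refine ⟨fun h9 => ?_, (hR.b2 0 i h0 (by omega)).2 h8.2⟩
          have := (hR.b1 0 i h0 (by omega)).1 h9
          rw [h8.1] at this
          exact Bool.noConfusion this

/-- **U3.** If the adjacency of `x i` and `v j` is not constant then there is a `T1`. -/
theorem useC (m₀ m : ℕ) : ∃ N : ℕ, ∀ (V : Type) (G : SimpleGraph V) (n : ℕ)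
    (a b : ℕ → V) (κ : ℕ → ℕ) (x y v : ℕ → V), FrJ G → (∀ x v, ¬ Thin G m₀ x v) → CM G n a b →
    9 ≤ n → Fm G n a b N κ x y v → ((∀ i < N, ∀ j < N, (G.Adj (x i) (v j) ↔ i = j)) ∨
      (∀ i < N, ∀ j < N, (G.Adj (x i) (v j) ↔ i ≠ j)) ∨
      ∀ i < N, ∀ j < N, (G.Adj (x i) (v j) ↔ i ≤ j)) →
    ∃ σ : ℕ → ℕ, (∀ i < m, σ i < N) ∧ (∀ i j, i < j → j < m → σ i < σ j) ∧
      T1 G m (fun i => y (σ i)) (fun i => x (σ i)) fun i => v (σ i) := by
  obtain ⟨N, hN⟩ := rail (m₀ + m + 6) (by omega)
  refine ⟨N, fun V G n a b κ x y v hG hT hc hn hF hp => ?_⟩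
  have hne : ∀ i j, i < j → j < N → v j ≠ v i := by
    intro i j hij hj e
    rcases hp with hp | hp | hp
    · have h1 := (hp i (by omega) i (by omega)).2 rfl
      rw [← e] at h1
      exact hij.ne ((hp i (by omega) j hj).1 h1)
    · have h1 := (hp i (by omega) j hj).2 hij.ne
      rw [e] at h1
      exact (hp i (by omega) i (by omega)).1 h1 rfl
    · have h1 := (hp j hj j hj).2 le_rfl
      rw [e] at h1
      have := (hp j hj i (by omega)).1 h1
      omega
  obtain ⟨σ, t1, t2, c, hc', hR⟩ := hN V G n a b κ x y v hG hc hn hF hne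
  have hσ := inc_ne t2
  refine ⟨σ, fun i hi => t1 i (by omega), fun i j hij hj => t2 i j hij (by omega), ?_⟩
  have h7 : ∀ c ∈ [0, 1, 8, 16, 84, 85, 42, 43, 69, 35],
      ((c.testBit 1 = false ∧ c.testBit 3 = true) → (c.testBit 5 = false ∨ c.testBit 5 = true) →
        c = 8) ∧
      (c.testBit 1 = true → c.testBit 3 = false → c = 35) ∧
      (c.testBit 1 = true → c.testBit 3 = true → c.testBit 5 = true) := by decide +kernel
  obtain ⟨r1, r2, r3⟩ := h7 c hc'
  -- the code is `8` or `35`
  have key : c = 8 ∨ c = 35 := by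
    have s01 : σ 0 < σ 1 := t2 0 1 (by omega) (by omega)
    have l0 := t1 0 (by omega)
    have l1 := t1 1 (by omega)
    rcases hp with hp | hp | hp
    · refine Or.inl (r1 ⟨?_, ?_⟩ (by cases c.testBit 5 <;> simp))
      · rw [Bool.eq_false_iff]
        intro h
        have := (hp _ l0 _ l1).1 ((hR.a1 0 1 (by omega) (by omega)).2 h).symm
        omega
      · exact (hR.d1 0 (by omega)).1 ((hp _ l0 _ l0).2 rfl).symm
    · refine Or.inr (r2 ?_ ?_)
      · exact (hR.a1 0 1 (by omega) (by omega)).1 ((hp _ l0 _ l1).2 (by omega)).symm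
      · rw [Bool.eq_false_iff]
        intro h
        exact (hp _ l0 _ l0).1 ((hR.d1 0 (by omega)).2 h).symm rfl
    · exfalso
      have h1 := (hR.a1 0 1 (by omega) (by omega)).1 ((hp _ l0 _ l1).2 (by omega)).symm
      have h2 := (hR.d1 0 (by omega)).1 ((hp _ l0 _ l0).2 le_rfl).symm
      have h3 := (hp _ l1 _ l0).1 ((hR.b1 0 1 (by omega) (by omega)).2 (r3 h1 h2)).symm
      omega
  rcases key with rfl | rfl
  · refine (hT (fun i => x (σ i)) (fun i => v (σ i)) ⟨?_, ?_, ?_⟩).elim
    · exact fun i hi j hj => hR.cm.aa i (by omega) j (by omega)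
    · intro i hi j hj h9
      rcases lt_trichotomy i j with hij | hij | hij
      · exact absurd ((hR.vv i j hij (by omega)).1 h9.symm) (by decide)
      · subst hij
        exact G.irrefl h9
      · exact absurd ((hR.vv j i hij (by omega)).1 h9) (by decide)
    · intro i hi j hj
      rcases lt_trichotomy i j with hij | hij | hij
      · exact iff_of_false (fun h9 => absurd ((hR.a1 i j hij (by omega)).1 h9.symm) (by decide))
          hij.ne
      · subst hij
        exact iff_of_true ((hR.d1 i (by omega)).2 (by decide)).symm rfl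
      · exact iff_of_false (fun h9 => absurd ((hR.b1 j i hij (by omega)).1 h9.symm) (by decide))
          hij.ne'
  · have hxv : ∀ i < m, ∀ j < m, i ≠ j → G.Adj (v (σ i)) (x (σ j)) := by
      intro i hi j hj hij
      rcases lt_or_gt_of_ne hij with hij | hij
      · exact (hR.b1 i j hij (by omega)).2 (by decide)
      · exact (hR.a1 j i hij (by omega)).2 (by decide)
    refine ⟨⟨fun i hi j hj => hR.cm.bb i (by omega) j (by omega), fun i hi j hj => hR.cm.aa i
      (by omega) j (by omega), fun i hi j hj hij => (hR.cm.ab j (by omega) i (by omega)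
      (Ne.symm hij)).symm, fun i hi h => hR.cm.na i (by omega) h.symm,
      fun i hi => (hR.cm.ne i (by omega)).symm⟩,
      ⟨?_, fun i hi j hj => hR.cm.aa i (by omega) j (by omega), hxv, ?_, fun i hi => hR.vx i
        (by omega) i (by omega)⟩, ?_, fun i hi j hj e => hR.vy j (by omega) i (by omega) e.symm⟩
    · intro i hi j hj hij
      rcases lt_or_gt_of_ne hij with hij | hij
      · exact ((hR.vv i j hij (by omega)).2 (by decide)).symm
      · exact (hR.vv j i hij (by omega)).2 (by decide)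
    · exact fun i hi h => absurd ((hR.d1 i (by omega)).1 h) (by decide)
    · intro i hi j hj h
      rcases lt_trichotomy i j with hij | hij | hij
      · exact absurd ((hR.a2 i j hij (by omega)).1 h.symm) (by decide)
      · subst hij
        exact absurd ((hR.d2 i (by omega)).1 h.symm) (by decide)
      · exact absurd ((hR.b2 j i hij (by omega)).1 h.symm) (by decide)

end Pool.Agent.MPd439b2.X3
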